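import Pool.Agent.Lib.MP_836f52_al_H7.Tree

set_option autoImplicit false

/-!
Axes in trees and uniform bounds.
-/

namespace Pool.Agent.Lib.MP_836f52_al_H7.VF

open Pool.Agent.Lib.MP_836f52_al_H7

universe u v w

/-- uniformly bounded families of sets -/
def UB {ι : Type u} {α : Type v} (A : ι → Set α) : Prop := ∃ k : ℕ, ∀ i, (A i).encard ≤ k

lemma UB.mono {ι : Type u} {α : Type v} {A A' : ι → Set α} (h : UB A) (hs : ∀ i, A' i ⊆ A i) :
    UB A' := by
  obtain ⟨k, hk⟩ := h
  exact ⟨k, fun i => (Set.encard_le_encard (hs i)).trans (hk i)⟩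

lemma UB.union {ι : Type u} {α : Type v} {A A' : ι → Set α} (h : UB A) (h' : UB A') :
    UB (fun i => A i ∪ A' i) := by
  obtain ⟨k, hk⟩ := h
  obtain ⟨k', hk'⟩ := h'
  refine ⟨k + k', fun i => (Set.encard_union_le _ _).trans ?_⟩
  push_cast
  exact add_le_add (hk i) (hk' i)

lemma UB.image {ι : Type u} {α : Type v} {β : Type w} {A : ι → Set α} (h : UB A)
    (f : ι → α → β) : UB (fun i => f i '' A i) := by
  obtain ⟨k, hk⟩ := h
  exact ⟨k, fun i => (Set.encard_image_le _ _).trans (hk i)⟩

lemma UB.preimage {ι : Type u} {α : Type v} {β : Type w} {A : ι → Set α} (h : UB A)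
    (f : ι → β → α) (hf : ∀ i, Function.Injective (f i)) : UB (fun i => f i ⁻¹' A i) := by
  obtain ⟨k, hk⟩ := h
  refine ⟨k, fun i => ?_⟩
  rw [← (hf i).encard_image]
  exact (Set.encard_le_encard (Set.image_preimage_subset _ _)).trans (hk i)

lemma UB.empty {ι : Type u} {α : Type v} : UB (fun _ : ι => (∅ : Set α)) :=
  ⟨0, fun i => by simp⟩

lemma UB.biUnion {ι : Type u} {α : Type v} {J : Type w} {s : Set J} (hs : s.Finite)
    {A : J → ι → Set α} (h : ∀ j ∈ s, UB (A j)) : UB (fun i => ⋃ j ∈ s, A j i) := by
  induction s, hs using Set.Finite.induction_on with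
  | empty =>
    apply UB.mono UB.empty
    intro i
    simp
  | insert _ _ ih =>
    rename_i a s _ _
    have h1 := (h a (Set.mem_insert _ _)).union (ih (fun j hj => h j (Set.mem_insert_of_mem _ hj)))
    apply UB.mono h1
    intro i
    rw [Set.biUnion_insert]

lemma UB.finite {ι : Type u} {α : Type v} {A : ι → Set α} (h : UB A) (i : ι) : (A i).Finite := by
  obtain ⟨k, hk⟩ := h
  exact Set.finite_of_encard_le_coe (hk i)

lemma UB.comp {ι : Type u} {α : Type v} {κ : Type w} {A : ι → Set α} (h : UB A) (f : κ → ι) :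
    UB (fun i => A (f i)) := by
  obtain ⟨k, hk⟩ := h
  exact ⟨k, fun i => hk (f i)⟩

variable {S : Type u} {T : SimpleGraph S} {N : Type v} [Group N] [MulAction N S]

/-- the index type of oriented edges -/
abbrev OE (T : SimpleGraph S) : Type u := {e : S × S // T.Adj e.1 e.2}

lemma crossing_ub (hT : T.IsTree)
    (hact : ∀ (n : N) (x y : S), T.Adj x y → T.Adj (n • x) (n • y))
    (hfree : ∀ (n : N) (x : S), n • x = x → n = 1) (a b : S) :
    UB (fun e : OE T => {n : N | ¬ (n • a ∈ halfspace T e.1.1 e.1.2 ↔
      n • b ∈ halfspace T e.1.1 e.1.2)}) := by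
  obtain ⟨p⟩ := hT.1.preconnected a b
  induction p with
  | nil =>
    apply UB.mono UB.empty
    intro i n hn
    exact absurd Iff.rfl hn
  | cons h p ih =>
    rename_i a c b
    have h1 : UB (fun e : OE T => {n : N | ¬ (n • a ∈ halfspace T e.1.1 e.1.2 ↔
        n • c ∈ halfspace T e.1.1 e.1.2)}) := by
      have hsub : ∀ z z' : S, {n : N | n • z = z'}.encard ≤ 1 := by
        intro z z'
        rw [Set.encard_le_one_iff]
        intro m n hm hn
        have : (m⁻¹ * n) • z = z := by
          rw [mul_smul, inv_smul_eq_iff]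
          exact hn.trans hm.symm
        exact (inv_mul_eq_one.1 (hfree _ _ this))
      have k1 : UB (fun e : OE T => {n : N | n • a = e.1.1}) := ⟨1, fun e => hsub _ _⟩
      have k2 : UB (fun e : OE T => {n : N | n • a = e.1.2}) := ⟨1, fun e => hsub _ _⟩
      apply UB.mono (k1.union k2)
      rintro ⟨⟨x, y⟩, hxy⟩ n hn
      simp only [Set.mem_ofPred_eq] at hn
      simp only at hxy
      by_cases h2 : n • a ∈ halfspace T x y
      · have h3 : n • c ∉ halfspace T x y := fun h3 => hn ⟨fun _ => h3, fun _ => h2⟩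
        right
        exact (tree_crossing hT hxy (hact n _ _ h).symm h3 h2).2
      · have h3 : n • c ∈ halfspace T x y := by
          by_contra h3
          exact hn ⟨fun h4 => absurd h4 h2, fun h4 => absurd h4 h3⟩
        left
        exact (tree_crossing hT hxy (hact n _ _ h) h2 h3).1
    apply UB.mono (h1.union ih)
    intro e n hn
    simp only [Set.mem_ofPred_eq, Set.mem_union] at hn ⊢
    tauto

lemma tree_axis (hT : T.IsTree)
    (hact : ∀ (n : N) (x y : S), T.Adj x y → T.Adj (n • x) (n • y)) (n : N)
    (hfix : ∀ x : S, n • x ≠ x) (hinv : ∀ x y : S, T.Adj x y → n • x = y → n • y ≠ x) :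
    ∃ x y, T.Adj x y ∧ (∀ k : ℕ, n ^ (k + 1) • x ∈ halfspace T x y) ∧
      ∀ k : ℕ, (n⁻¹) ^ k • x ∉ halfspace T x y := by
  classical
  have hc := hT.1
  have hd := dist_smul (X := T) hc hact
  obtain ⟨v0⟩ := hc.nonempty
  have hex : ∃ l, ∃ x, T.dist x (n • x) = l := ⟨_, v0, rfl⟩
  obtain ⟨x, hx⟩ := Nat.find_spec hex
  set l := Nat.find hex with hl
  have hmin : ∀ z, l ≤ T.dist z (n • z) := fun z => Nat.find_min' hex ⟨z, rfl⟩
  obtain ⟨y, hy1, hy2⟩ := first_step hc (fun h => hfix x h.symm : x ≠ n • x)
  have hxy1 : T.dist x y = 1 := SimpleGraph.dist_eq_one_iff_adj.2 hy1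
  have hnadj := hact n _ _ hy1
  have hn1 : T.dist (n • x) (n • y) = 1 := SimpleGraph.dist_eq_one_iff_adj.2 hnadj
  have hfar : T.dist x (n • y) = l + 1 := by
    rcases tree_dist_adj hT hnadj x with h | h
    · omega
    · exfalso
      have h3 := tree_split hT (n • y) (a := x) (c := n • x) (z := y) (by omega)
      have h4 := hmin y
      have c1 := T.dist_comm (u := n • y) (v := n • x)
      rcases h3 with h3 | h3
      · omega
      · have c2 := T.dist_comm (u := n • y) (v := y)
        have h5 : T.dist y (n • y) = 0 ∨ l = 1 := by omega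
        rcases h5 with h5 | h5
        · omega
        · have h6 : T.dist x (n • y) = 0 := by omega
          have h7 : T.dist y (n • x) = 0 := by omega
          exact hinv x y hy1 (hc.dist_eq_zero_iff.1 h7).symm (hc.dist_eq_zero_iff.1 h6).symm
  have hsub : ∀ z, z ∈ halfspace T (n • x) (n • y) → z ∈ halfspace T x y := by
    intro z hz
    simp only [halfspace, Set.mem_ofPred_eq] at hz ⊢
    have h1 := tree_dist_adj hT hnadj z
    have h2 := tree_split hT z (a := n • y) (c := x) (z := n • x) (by
      have c1 := T.dist_comm (u := n • y) (v := n • x)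
      have c2 := T.dist_comm (u := n • x) (v := x)
      have c3 := T.dist_comm (u := n • y) (v := x)
      omega)
    have c1 := T.dist_comm (u := n • y) (v := n • x)
    have c2 := T.dist_comm (u := n • x) (v := z)
    have c3 := T.dist_comm (u := n • y) (v := z)
    have c4 := T.dist_comm (u := n • x) (v := x)
    have c5 := T.dist_comm (u := n • x) (v := y)
    rcases h2 with h2 | h2
    · omega
    · have h3 := hc.dist_triangle (u := z) (v := n • x) (w := y)
      omega
  have hmem : ∀ m : N, ∀ z, m • z ∈ halfspace T (m • x) (m • y) ↔ z ∈ halfspace T x y := by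
    intro m z
    exact mem_halfspace_smul hc hact m x y z
  have hstep : ∀ z, n⁻¹ • z ∈ halfspace T x y → z ∈ halfspace T x y := by
    intro z hz
    apply hsub
    rw [← hmem n] at hz
    simpa using hz
  refine ⟨x, y, hy1, ?_, ?_⟩
  · intro k
    induction k with
    | zero =>
      rw [zero_add, pow_one]
      simp only [halfspace, Set.mem_ofPred_eq]
      have c4 := T.dist_comm (u := n • x) (v := x)
      have c5 := T.dist_comm (u := n • x) (v := y)
      omega
    | succ k ih =>
      apply hstep
      rw [← mul_smul]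
      have : n⁻¹ * n ^ (k + 1 + 1) = n ^ (k + 1) := by
        rw [pow_succ' n (k + 1)]
        group
      rw [this]
      exact ih
  · intro k
    induction k with
    | zero =>
      simp [halfspace]
    | succ k ih =>
      intro h
      apply ih
      apply hstep
      rw [← mul_smul, ← pow_succ']
      exact h

end Pool.Agent.Lib.MP_836f52_al_H7.VF
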