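import Pool.Agent.Lib.MP_836f52_al_H7.VF.CutTree
import Pool.Agent.Lib.MP_836f52_al_H7.VF.TreeLemmas

set_option autoImplicit false

/-!
Finitely generated virtually free groups act on trees with a free finite-index subgroup acting
freely on vertices.
-/

namespace Pool.Agent.Lib.MP_836f52_al_H7.VF

open Pool.Agent.Lib.MP_836f52_al_H7
open scoped Pointwise

universe u v w

variable {B : Type u} [Group B]

/-- Cayley graph -/
def cayB (Sg : Set B) : SimpleGraph B where
  Adj b b' := b ≠ b' ∧ ∃ s ∈ Sg, b' = b * s ∨ b = b' * s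
  symm := ⟨by
    rintro b b' ⟨h1, s, hs, h2⟩
    exact ⟨h1.symm, s, hs, h2.symm⟩⟩
  loopless := ⟨fun b h => h.1 rfl⟩

lemma cayB_smul (Sg : Set B) (g b b' : B) (h : (cayB Sg).Adj b b') :
    (cayB Sg).Adj (g • b) (g • b') := by
  obtain ⟨h1, s, hs, h2⟩ := h
  refine ⟨fun h => h1 (MulAction.injective g h), s, hs, ?_⟩
  simp only [smul_eq_mul]
  rcases h2 with h2 | h2
  · left
    rw [h2, mul_assoc]
  · right
    rw [h2, mul_assoc]

lemma cayB_preconnected (Sg : Set B) (hS : Subgroup.closure Sg = ⊤) :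
    (cayB Sg).Preconnected := by
  have key : ∀ g : B, ∀ b : B, (cayB Sg).Reachable b (b * g) := by
    intro g
    have hg : g ∈ Subgroup.closure Sg := by
      rw [hS]
      trivial
    induction hg using Subgroup.closure_induction with
    | mem s hs =>
      intro b
      by_cases h : b = b * s
      · rw [← h]
      · exact SimpleGraph.Adj.reachable ⟨h, s, hs, Or.inl rfl⟩
    | one =>
      intro b
      rw [mul_one]
    | mul x y _ _ hx hy =>
      intro b
      rw [← mul_assoc]
      exact (hx b).trans (hy _)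
    | inv x _ hx =>
      intro b
      have := (hx (b * x⁻¹)).symm
      rwa [inv_mul_cancel_right] at this
  intro a b
  have := key (a⁻¹ * b) a
  rwa [mul_inv_cancel_left] at this

lemma almost_inv {Sg : Set B} (hS : Subgroup.closure Sg = ⊤) {C : Set B}
    (hC : (bd (cayB Sg) C).Finite) (g : B) : {b | ¬ (b ∈ C ↔ b * g ∈ C)}.Finite := by
  have hg : g ∈ Subgroup.closure Sg := by
    rw [hS]
    trivial
  induction hg using Subgroup.closure_induction with
  | mem s hs =>
    have h1 := hC.image Prod.fst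
    have h2 := hC.image Prod.snd
    apply (h1.union h2).subset
    intro b hb
    simp only [Set.mem_ofPred_eq] at hb
    have hne : b ≠ b * s := by
      intro h
      rw [← h] at hb
      exact hb Iff.rfl
    by_cases hbC : b ∈ C
    · left
      have : b * s ∉ C := fun h => hb ⟨fun _ => h, fun _ => hbC⟩
      exact ⟨(b, b * s), ⟨⟨hne, s, hs, Or.inl rfl⟩, hbC, this⟩, rfl⟩
    · right
      have : b * s ∈ C := by
        by_contra h
        exact hb ⟨fun h' => absurd h' hbC, fun h' => absurd h' h⟩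
      exact ⟨(b * s, b), ⟨⟨hne.symm, s, hs, Or.inr rfl⟩, this, hbC⟩, rfl⟩
  | one =>
    convert Set.finite_empty
    ext b
    simp
  | mul x y _ _ hx hy =>
    have h1 : ((fun b => b * x) ⁻¹' {b | ¬ (b ∈ C ↔ b * y ∈ C)}).Finite :=
      hy.preimage (mul_left_injective x).injOn
    apply (hx.union h1).subset
    intro b hb
    simp only [Set.mem_ofPred_eq, Set.mem_union, Set.mem_preimage, mul_assoc] at hb ⊢
    tauto
  | inv x _ hx =>
    have h1 : ((fun b => b * x⁻¹) ⁻¹' {b | ¬ (b ∈ C ↔ b * x ∈ C)}).Finite :=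
      hx.preimage (mul_left_injective x⁻¹).injOn
    apply h1.subset
    intro b hb
    simp only [Set.mem_ofPred_eq, Set.mem_preimage, inv_mul_cancel_right] at hb ⊢
    tauto

lemma bd_cayB_ub {ι : Type v} {Sg : Set B} (hSf : Sg.Finite) (C : ι → Set B)
    (h : ∀ s ∈ Sg, UB (fun i => {b | ¬ (b ∈ C i ↔ b * s ∈ C i)})) :
    UB (fun i => bd (cayB Sg) (C i)) := by
  have h1 : UB (fun i => ⋃ s ∈ Sg, (fun b : B => (b, b * s)) '' {b | ¬ (b ∈ C i ↔ b * s ∈ C i)}) :=
    UB.biUnion hSf (A := fun s i => (fun b : B => (b, b * s)) '' {b | ¬ (b ∈ C i ↔ b * s ∈ C i)})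
      (fun s hs => (h s hs).image (fun _ b => (b, b * s)))
  have h2 : UB (fun i => ⋃ s ∈ Sg, (fun b : B => (b * s, b)) '' {b | ¬ (b ∈ C i ↔ b * s ∈ C i)}) :=
    UB.biUnion hSf (A := fun s i => (fun b : B => (b * s, b)) '' {b | ¬ (b ∈ C i ↔ b * s ∈ C i)})
      (fun s hs => (h s hs).image (fun _ b => (b * s, b)))
  apply UB.mono (h1.union h2)
  rintro i ⟨b, b'⟩ ⟨⟨h3, s, hs, h4 | h4⟩, h5, h6⟩
  · simp only at h4 h5 h6
    subst h4
    left
    simp only [Set.mem_iUnion]
    exact ⟨s, hs, b, fun h => h6 (h.1 h5), rfl⟩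
  · simp only at h4 h5 h6
    subst h4
    right
    simp only [Set.mem_iUnion]
    exact ⟨s, hs, b', fun h => h6 (h.2 h5), rfl⟩

/-- limit points -/
def pt (n b : B) (C : Set B) : Prop := ∃ k0 : ℕ, ∀ k ≥ k0, n ^ k * b ∈ C

lemma pt_isPt {Sg : Set B} (hS : Subgroup.closure Sg = ⊤) (n b : B)
    (hn : Function.Injective (fun k : ℕ => n ^ k)) : IsPt (cayB Sg) (pt n b) where
  inter C D _ _ := by
    constructor
    · rintro ⟨k0, hk⟩
      exact ⟨⟨k0, fun k h => (hk k h).1⟩, ⟨k0, fun k h => (hk k h).2⟩⟩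
    · rintro ⟨⟨k0, hk0⟩, ⟨k1, hk1⟩⟩
      exact ⟨max k0 k1, fun k h => ⟨hk0 k (le_trans (le_max_left _ _) h),
        hk1 k (le_trans (le_max_right _ _) h)⟩⟩
  compl C hC := by
    constructor
    · rintro ⟨k0, hk0⟩ ⟨k1, hk1⟩
      exact hk0 (max k0 k1) (le_max_left _ _) (hk1 _ (le_max_right _ _))
    · intro h
      have hfin := almost_inv hS hC (b⁻¹ * n * b)
      have hfin2 : ((fun k : ℕ => n ^ k * b) ⁻¹'
          {c | ¬ (c ∈ C ↔ c * (b⁻¹ * n * b) ∈ C)}).Finite := by
        apply hfin.preimage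
        intro k _ k' _ hk
        exact hn (mul_right_cancel hk)
      obtain ⟨k0, hk0⟩ := hfin2.bddAbove
      have hstep : ∀ k, k0 < k → (n ^ k * b ∈ C ↔ n ^ (k + 1) * b ∈ C) := by
        intro k hk
        by_contra hcon
        have : k ∈ ((fun k : ℕ => n ^ k * b) ⁻¹'
          {c | ¬ (c ∈ C ↔ c * (b⁻¹ * n * b) ∈ C)}) := by
          simp only [Set.mem_preimage, Set.mem_ofPred_eq]
          have e : n ^ k * b * (b⁻¹ * n * b) = n ^ (k + 1) * b := by
            rw [pow_succ]
            group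
          rw [e]
          exact hcon
        have := hk0 this
        omega
      refine ⟨k0 + 1, ?_⟩
      intro k hk hkC
      apply h
      refine ⟨k, ?_⟩
      intro k' hk'
      induction k', hk' using Nat.le_induction with
      | base =>
        simpa using hkC
      | succ m hm ih => exact (hstep m (by omega)).1 ih

lemma ptSmul_pt (g n b : B) : ptSmul g (pt n b) = pt (g * n * g⁻¹) (g * b) := by
  funext C
  unfold ptSmul pt
  have : ∀ k : ℕ, n ^ k * b ∈ g⁻¹ • C ↔ (g * n * g⁻¹) ^ k * (g * b) ∈ C := by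
    intro k
    rw [Set.mem_smul_set_iff_inv_smul_mem, inv_inv, smul_eq_mul, conj_pow]
    have e : g * (n ^ k * b) = g * n ^ k * g⁻¹ * (g * b) := by group
    rw [e]
  simp only [this]

theorem base_tree {N : Subgroup B} [hNn : N.Normal] [hNf : N.FiniteIndex] {Sg : Set B}
    (hSf : Sg.Finite) (hS : Subgroup.closure Sg = ⊤)
    {S₀ : Type w} (T₀ : SimpleGraph S₀) (hT₀ : T₀.IsTree) [MulAction N S₀]
    (hact₀ : ∀ (n : N) (x y : S₀), T₀.Adj x y → T₀.Adj (n • x) (n • y))
    (hfree₀ : ∀ (n : N) (x : S₀), n • x = x → n = 1)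
    (v : S₀) (htrans : ∀ x : S₀, ∃ n : N, n • v = x)
    (htf : ∀ (n : N) (k : ℕ), 0 < k → n ^ k = 1 → n = 1) :
    ∃ (S : Type u) (T : SimpleGraph S) (_ : MulAction B S), T.IsTree ∧
      (∀ (b : B) (x y : S), T.Adj x y → T.Adj (b • x) (b • y)) ∧
      (∀ (b : B) (x y : S), T.Adj x y → b • x = y → b • y = x → False) ∧
      ∀ n ∈ N, ∀ x : S, n • x = x → n = 1 := by
  classical
  -- coset representatives
  let t : B → B := fun b => (Quotient.out (b : B ⧸ N) : B)
  have ht : ∀ b, (t b)⁻¹ * b ∈ N := by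
    intro b
    rw [← QuotientGroup.eq]
    exact Quotient.out_eq _
  have ht' : ∀ b, b * (t b)⁻¹ ∈ N := by
    intro b
    have := hNn.conj_mem _ (ht b) (t b)
    have e : t b * ((t b)⁻¹ * b) * (t b)⁻¹ = b * (t b)⁻¹ := by group
    rwa [e] at this
  have htn : ∀ n ∈ N, ∀ b, t (n * b) = t b := by
    intro n hn b
    have : ((n * b : B) : B ⧸ N) = (b : B ⧸ N) := by
      rw [QuotientGroup.eq]
      have := hNn.conj_mem _ (N.inv_mem hn) b⁻¹
      have e : b⁻¹ * n⁻¹ * b⁻¹⁻¹ = (n * b)⁻¹ * b := by group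
      rwa [e] at this
    simp only [t]
    rw [this]
  have htt : ∀ b, t (t b) = t b := by
    intro b
    have : ((t b : B) : B ⧸ N) = (b : B ⧸ N) := Quotient.out_eq _
    simp only [t]
    simp only [t] at this
    rw [this]
  let ν : B → N := fun b => ⟨b * (t b)⁻¹, ht' b⟩
  have hν : ∀ b, (ν b : B) * t b = b := by
    intro b
    simp [ν]
  have hνn : ∀ (n : N) (b : B), ν (n * b) = n * ν b := by
    intro n b
    apply Subtype.ext
    simp only [ν, Subgroup.coe_mul]
    rw [htn n n.2 b, mul_assoc]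
  have hνs : ∀ b s : B, ν (b * s) = ν b * ν (t b * s) := by
    intro b s
    rw [← hνn, ← mul_assoc, hν]
  have htfin : (Set.range t).Finite := by
    apply (Set.finite_range (fun q : B ⧸ N => (Quotient.out q : B))).subset
    rintro _ ⟨b, rfl⟩
    exact ⟨(b : B ⧸ N), rfl⟩
  set Γ := cayB Sg with hΓdef
  have hΓ := cayB_preconnected Sg hS
  have hact := cayB_smul Sg
  -- the cuts from the tree
  let Ce : OE T₀ → Set B := fun e => {b | ν b • v ∈ halfspace T₀ e.1.1 e.1.2}
  have hUB : UB (fun e => bd Γ (Ce e)) := by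
    apply bd_cayB_ub hSf
    intro s hs
    have h1 : UB (fun e : OE T₀ => ⋃ c ∈ Set.range t, (fun n : N => (n : B) * c) ''
        {n : N | ¬ (n • v ∈ halfspace T₀ e.1.1 e.1.2 ↔
          n • (ν (c * s) • v) ∈ halfspace T₀ e.1.1 e.1.2)}) :=
      UB.biUnion htfin (A := fun c (e : OE T₀) => (fun n : N => (n : B) * c) ''
        {n : N | ¬ (n • v ∈ halfspace T₀ e.1.1 e.1.2 ↔
          n • (ν (c * s) • v) ∈ halfspace T₀ e.1.1 e.1.2)})
        (fun c _ => (crossing_ub hT₀ hact₀ hfree₀ v (ν (c * s) • v)).image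
          (fun _ n => (n : B) * c))
    apply UB.mono h1
    intro e b hb
    simp only [Set.mem_iUnion]
    refine ⟨t b, ⟨b, rfl⟩, ν b, ?_, hν b⟩
    intro h
    apply hb
    change ν b • v ∈ halfspace T₀ e.1.1 e.1.2 ↔ ν (b * s) • v ∈ halfspace T₀ e.1.1 e.1.2
    rw [hνs, mul_smul]
    exact h
  obtain ⟨K, hK⟩ := hUB
  have hCfin : ∀ e, (bd Γ (Ce e)).Finite := fun e => Set.finite_of_encard_le_coe (hK e)
  have hCsz : ∀ e, sz Γ (Ce e) ≤ K := by
    intro e
    have := hK e
    rw [← (hCfin e).cast_ncard_eq] at this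
    exact_mod_cast this
  -- powers
  have hpow : ∀ n ∈ N, n ≠ 1 → Function.Injective (fun k : ℕ => n ^ k) := by
    have aux : ∀ n ∈ N, n ≠ 1 → ∀ i j : ℕ, i < j → n ^ i ≠ n ^ j := by
      intro n hn hn1 i j hij h
      apply hn1
      have h1 : n ^ (j - i) = 1 := by
        have : n ^ j = n ^ i * n ^ (j - i) := by
          rw [← pow_add]
          congr 1
          omega
        rw [this] at h
        exact (left_eq_mul.1 h)
      have h2 := htf ⟨n, hn⟩ (j - i) (by omega) (by
        apply Subtype.ext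
        simpa using h1)
      exact congrArg Subtype.val h2
    intro n hn hn1 i j hij
    rcases lt_trichotomy i j with h | h | h
    · exact absurd hij (aux n hn hn1 i j h)
    · exact h
    · exact absurd hij.symm (aux n hn hn1 j i h)
  let A : (Set B → Prop) → (Set B → Prop) → Prop := fun p q =>
    ∃ n ∈ N, n ≠ 1 ∧ ∃ b, p = pt n b ∧ q = pt n⁻¹ b ∧
      ∃ C, (bd Γ C).Finite ∧ Sep p q C ∧ sz Γ C ≤ K
  obtain ⟨E, hE1, hE2, hE3, hE4, hE5, hE6⟩ := exists_family (B := B) hΓ hact K A
    (by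
      rintro p q ⟨n, hn, hn1, b, rfl, rfl, -⟩
      exact ⟨pt_isPt hS n b (hpow n hn hn1),
        pt_isPt hS n⁻¹ b (hpow n⁻¹ (N.inv_mem hn) (by simpa using hn1))⟩)
    (by
      rintro p q ⟨n, hn, hn1, b, rfl, rfl, h⟩
      exact h)
    (by
      rintro g p q ⟨n, hn, hn1, b, rfl, rfl, C, hC1, hC2, hC3⟩
      refine ⟨g * n * g⁻¹, hNn.conj_mem n hn g, ?_, g * b, ptSmul_pt g n b, ?_,
        g • C, bd_smul_finite hact g hC1, (sep_smul g _ _ C).2 hC2, ?_⟩
      · intro h
        apply hn1
        have : n = g⁻¹ * (g * n * g⁻¹) * g := by group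
        rw [this, h]
        group
      · rw [ptSmul_pt]
        congr 1
        group
      · rw [sz_smul hact]
        exact hC3)
  have hEfin : ∀ u v, {C | C ∈ E ∧ u ∈ C ∧ v ∉ C}.Finite := by
    intro u v
    apply (tight_sep_finite hΓ K u v).subset
    rintro C ⟨h1, h2, h3⟩
    exact ⟨hE3 C h1, h2, h3⟩
  obtain ⟨D⟩ := exists_cutTree (B := B) hE1 hE2 hE4 hEfin hE5
  let _ := D.action
  refine ⟨D.S, D.T, D.action, D.isTree, D.adj_smul, D.no_inv, ?_⟩
  intro n hn x hnx
  by_contra hn1
  -- a cut separating the ends of `n`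
  obtain ⟨x₀, y₀, hxy, hax1, hax2⟩ := tree_axis hT₀ hact₀ (⟨n, hn⟩ : N)
    (fun z hz => hn1 (congrArg Subtype.val (hfree₀ _ z hz)))
    (fun z z' _ h1 h2 => by
      apply hn1
      have h3 : (⟨n, hn⟩ : N) ^ 2 = 1 := by
        apply hfree₀ _ z
        rw [pow_two, mul_smul, h1, h2]
      exact congrArg Subtype.val (htf _ 2 (by norm_num) h3))
  obtain ⟨m, hm⟩ := htrans x₀
  let b : B := (m : B) * t 1
  have hνb : ν b = m := by
    have h1 : ν b = m * ν (t 1) := hνn m (t 1)
    have h2 : ν (t 1) = 1 := by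
      apply Subtype.ext
      simp only [ν, Subgroup.coe_one]
      rw [htt]
      simp
    rw [h1, h2, mul_one]
  have hνk : ∀ (n' : N) (k : ℕ), ν ((n' : B) ^ k * b) = n' ^ k * m := by
    intro n' k
    have := hνn (n' ^ k) b
    rw [hνb] at this
    rw [← this]
    simp
  let e₀ : OE T₀ := ⟨(x₀, y₀), hxy⟩
  have hp : pt n b (Ce e₀) := by
    refine ⟨1, ?_⟩
    intro k hk
    obtain ⟨j, rfl⟩ : ∃ j, k = j + 1 := ⟨k - 1, by omega⟩
    change ν (n ^ (j + 1) * b) • v ∈ halfspace T₀ x₀ y₀
    have := hνk ⟨n, hn⟩ (j + 1)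
    simp only at this
    rw [this, mul_smul, hm]
    exact hax1 j
  have hq : ¬ pt n⁻¹ b (Ce e₀) := by
    rintro ⟨k0, hk0⟩
    have h1 := hk0 k0 (le_refl _)
    change ν (n⁻¹ ^ k0 * b) • v ∈ halfspace T₀ x₀ y₀ at h1
    have := hνk ⟨n, hn⟩⁻¹ k0
    simp only [Subgroup.coe_inv] at this
    rw [this, mul_smul, hm] at h1
    exact hax2 k0 h1
  obtain ⟨C, hC, hsep⟩ := hE6 (pt n b) (pt n⁻¹ b)
    ⟨n, hn, hn1, b, rfl, rfl, Ce e₀, hCfin e₀, fun h => hq (h.1 hp), hCsz e₀⟩
  -- the contradiction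
  have main : ∀ C ∈ E, pt n b C → ¬ pt n⁻¹ b C → False := by
    intro C hC h1 h2
    have hptn : pt n⁻¹ b Cᶜ := ((pt_isPt hS n⁻¹ b
      (hpow n⁻¹ (N.inv_mem hn) (by simpa using hn1))).compl C (hE3 C hC).2.2.1).2 h2
    obtain ⟨k1, hk1⟩ := h1
    obtain ⟨k2, hk2⟩ := hptn
    -- no positive power fixes `C`
    have hnofix : ∀ j : ℕ, 0 < j → n ^ j • C ≠ C := by
      intro j hj h
      have hall : ∀ i : ℕ, n ^ (j * i) • C = C := by
        intro i
        induction i with
        | zero => simp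
        | succ i ih =>
          rw [Nat.mul_succ, pow_add, mul_smul, h, ih]
      have h3 : n ^ (j * (k1 + k2)) * b ∈ C := hk1 _ (by nlinarith)
      have h4 : n⁻¹ ^ (j * (k1 + k2)) * b ∉ C := hk2 _ (by nlinarith)
      apply h4
      have h6 := hall (k1 + k2 + (k1 + k2))
      rw [← h6, Set.mem_smul_set_iff_inv_smul_mem] at h3
      have e : (n ^ (j * (k1 + k2 + (k1 + k2))))⁻¹ • (n ^ (j * (k1 + k2)) * b) =
          n⁻¹ ^ (j * (k1 + k2)) * b := by
        rw [smul_eq_mul, Nat.mul_add, pow_add, inv_pow]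
        group
      rwa [e] at h3
    have hinj : ∀ i j : ℕ, n ^ i • C = n ^ j • C → i = j := by
      have aux : ∀ i j : ℕ, i < j → n ^ i • C ≠ n ^ j • C := by
        intro i j hij h
        apply hnofix (j - i) (by omega)
        have : n ^ j = n ^ i * n ^ (j - i) := by
          rw [← pow_add]
          congr 1
          omega
        rw [this, mul_smul] at h
        exact (MulAction.injective (n ^ i) h).symm
      intro i j h
      rcases lt_trichotomy i j with h' | h' | h'
      · exact absurd h (aux i j h')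
      · exact h'
      · exact absurd h.symm (aux j i h')
    have hfixk : ∀ k : ℕ, n ^ k • x = x := by
      intro k
      induction k with
      | zero => simp
      | succ k ih => rw [pow_succ, mul_smul, hnx, ih]
    have hfixk' : ∀ k : ℕ, (n ^ k)⁻¹ • x = x := by
      intro k
      rw [inv_smul_eq_iff, hfixk]
    by_cases hside : C ∈ D.side x
    · have hinf : (Set.range (fun k : ℕ => n ^ (k + k2) • C)).Infinite := by
        apply Set.infinite_range_of_injective
        intro i j h
        have := hinj _ _ h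
        omega
      apply hinf
      apply (D.side_fin x b).1.subset
      rintro _ ⟨k, rfl⟩
      refine ⟨hE5 _ _ hC, ?_, ?_⟩
      · have := (D.side_smul x C (n ^ (k + k2)) hC).2 hside
        rwa [hfixk] at this
      · intro h
        rw [Set.mem_smul_set_iff_inv_smul_mem] at h
        apply hk2 (k + k2) (by omega)
        rw [smul_eq_mul, ← inv_pow] at h
        exact h
    · have hinf : (Set.range (fun k : ℕ => (n ^ (k + k1))⁻¹ • C)).Infinite := by
        apply Set.infinite_range_of_injective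
        intro i j h
        simp only at h
        rw [inv_smul_eq_iff, ← mul_smul] at h
        by_contra hne
        rcases Nat.lt_or_ge i j with hij | hij
        · have e : n ^ (i + k1) * (n ^ (j + k1))⁻¹ = (n ^ (j - i))⁻¹ := by
            have : n ^ (j + k1) = n ^ (j - i) * n ^ (i + k1) := by
              rw [← pow_add]
              congr 1
              omega
            rw [this, mul_inv_rev]
            group
          rw [e, eq_inv_smul_iff] at h
          exact hnofix (j - i) (by omega) h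
        · have e : n ^ (i + k1) * (n ^ (j + k1))⁻¹ = n ^ (i - j) := by
            have : n ^ (i + k1) = n ^ (i - j) * n ^ (j + k1) := by
              rw [← pow_add]
              congr 1
              omega
            rw [this]
            group
          rw [e] at h
          exact hnofix (i - j) (by omega) h.symm
      apply hinf
      apply (D.side_fin x b).2.subset
      rintro _ ⟨k, rfl⟩
      refine ⟨hE5 _ _ hC, ?_, ?_⟩
      · intro h
        apply hside
        rw [← D.side_smul x C (n ^ (k + k1))⁻¹ hC, hfixk']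
        exact h
      · rw [Set.mem_smul_set_iff_inv_smul_mem, inv_inv, smul_eq_mul]
        exact hk1 _ (by omega)
  have hI1 := pt_isPt hS n b (hpow n hn hn1)
  have hI2 := pt_isPt hS n⁻¹ b (hpow n⁻¹ (N.inv_mem hn) (by simpa using hn1))
  have hCf := (hE3 C hC).2.2.1
  unfold Sep at hsep
  by_cases h1 : pt n b C
  · exact main C hC h1 (fun h => hsep ⟨fun _ => h, fun _ => h1⟩)
  · have h2 : pt n⁻¹ b C := by
      by_contra h2
      exact hsep ⟨fun h => absurd h h1, fun h => absurd h h2⟩
    apply main Cᶜ (hE1 C hC)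
    · exact (hI1.compl C hCf).2 h1
    · intro h
      exact (hI2.compl C hCf).1 h h2

end Pool.Agent.Lib.MP_836f52_al_H7.VF
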