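import Mathlib

set_option autoImplicit false

/-!
The Cayley tree of a free group.
-/

namespace Pool.Agent.Lib.MP_836f52_al_H7.VF

universe u

variable {X : Type u}

section last

variable [DecidableEq X]

open FreeGroup

lemma last_mul (s : X × Bool) (w : FreeGroup X) (hw : w ≠ 1) (hsw : FreeGroup.mk [s] * w ≠ 1) :
    (FreeGroup.mk [s] * w).toWord.getLast? = w.toWord.getLast? := by
  have h1 : (FreeGroup.mk [s] * w).toWord = FreeGroup.reduce (s :: w.toWord) := by
    conv_lhs => rw [← FreeGroup.mk_toWord (x := w)]
    rw [FreeGroup.mul_mk, FreeGroup.toWord_mk]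
    rfl
  rw [FreeGroup.reduce.cons, FreeGroup.reduce_toWord] at h1
  cases h : w.toWord with
  | nil => exact absurd (FreeGroup.toWord_eq_nil_iff.1 h) hw
  | cons hd tl =>
    rw [h] at h1
    simp only at h1
    split_ifs at h1
    · rw [h1]
      cases tl with
      | nil => exact absurd (FreeGroup.toWord_eq_nil_iff.1 h1) hsw
      | cons a l => simp
    · rw [h1]
      simp

/-- first letter (inverted) -/
def fl (w : FreeGroup X) : Option (X × Bool) := w⁻¹.toWord.getLast?

lemma fl_mul_of (w : FreeGroup X) (x : X) (hw : w ≠ 1) (hwx : w * FreeGroup.of x ≠ 1) :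
    fl (w * FreeGroup.of x) = fl w := by
  unfold fl
  have e : (w * FreeGroup.of x)⁻¹ = FreeGroup.mk [(x, false)] * w⁻¹ := by
    rw [mul_inv_rev]
    rfl
  rw [e]
  apply last_mul
  · simpa using hw
  · rw [← e]
    intro h
    exact hwx (inv_eq_one.1 h)

lemma fl_of (x : X) : fl (FreeGroup.of x) = some (x, false) := by
  unfold fl
  rw [FreeGroup.toWord_inv, FreeGroup.toWord_of]
  simp [FreeGroup.invRev]

lemma fl_of_inv (x : X) : fl (FreeGroup.of x)⁻¹ = some (x, true) := by
  unfold fl
  rw [inv_inv, FreeGroup.toWord_of]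
  simp

end last

/-- Cayley graph of the free group -/
def cayley (X : Type u) : SimpleGraph (FreeGroup X) where
  Adj g h := ∃ x, h = g * FreeGroup.of x ∨ g = h * FreeGroup.of x
  symm := ⟨by
    rintro g h ⟨x, hx⟩
    exact ⟨x, hx.symm⟩⟩
  loopless := ⟨by
    rintro g ⟨x, hx⟩
    have : g = g * FreeGroup.of x := by
      rcases hx with h | h <;> exact h
    rw [left_eq_mul] at this
    exact FreeGroup.of_ne_one x this⟩

lemma cayley_adj_mul {g h : FreeGroup X} (n : FreeGroup X) (hgh : (cayley X).Adj g h) :
    (cayley X).Adj (n * g) (n * h) := by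
  obtain ⟨x, hx⟩ := hgh
  refine ⟨x, ?_⟩
  rcases hx with hx | hx
  · left
    rw [hx, mul_assoc]
  · right
    rw [hx, mul_assoc]

lemma cayley_reachable (w : FreeGroup X) : ∀ g, (cayley X).Reachable g (g * w) := by
  induction w using FreeGroup.induction_on with
  | C1 =>
    intro g
    rw [mul_one]
  | of x =>
    intro g
    exact SimpleGraph.Adj.reachable ⟨x, Or.inl rfl⟩
  | inv_of x _ =>
    intro g
    apply SimpleGraph.Adj.reachable
    refine ⟨x, Or.inr ?_⟩
    simp
  | mul x y hx hy =>
    intro g
    rw [← mul_assoc]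
    exact (hx g).trans (hy (g * x))

theorem cayley_isTree (X : Type u) : (cayley X).IsTree := by
  classical
  constructor
  · apply SimpleGraph.Connected.mk
    intro g h
    have := cayley_reachable (g⁻¹ * h) g
    rwa [mul_inv_cancel_left] at this
  · rw [SimpleGraph.isAcyclic_iff_forall_adj_isBridge]
    have key : ∀ (g : FreeGroup X) (x : X), (cayley X).IsBridge s(g, g * FreeGroup.of x) := by
      intro g x
      rw [SimpleGraph.isBridge_iff_forall_walk_mem_edges]
      intro w
      let U : Set (FreeGroup X) := {w | g⁻¹ * w ≠ 1 ∧ fl (g⁻¹ * w) = some (x, false)}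
      have h1 : g ∈ Uᶜ := by
        intro h
        apply h.1
        simp
      have h2 : g * FreeGroup.of x ∉ Uᶜ := by
        intro h
        apply h
        refine ⟨?_, ?_⟩
        · rw [inv_mul_cancel_left]
          exact FreeGroup.of_ne_one x
        · rw [inv_mul_cancel_left, fl_of]
      obtain ⟨d, hd1, hd2, hd3⟩ := w.exists_boundary_dart Uᶜ h1 h2
      rw [Set.mem_compl_iff, not_not] at hd3
      obtain ⟨y, hy | hy⟩ := d.adj
      · have e1 : g⁻¹ * d.snd = (g⁻¹ * d.fst) * FreeGroup.of y := by
          rw [hy, mul_assoc]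
        by_cases hw : g⁻¹ * d.fst = 1
        · have e2 : d.fst = g := (inv_mul_eq_one.1 hw).symm
          have e3 := hd3.2
          rw [e1, hw, one_mul, fl_of] at e3
          have e4 : y = x := by
            simpa using e3
          have : s(g, g * FreeGroup.of x) = d.edge := by
            have : d.snd = g * FreeGroup.of x := by rw [hy, e2, e4]
            rw [← this]
            conv_lhs => rw [← e2]
            rfl
          rw [this]
          exact List.mem_map.2 ⟨d, hd1, rfl⟩
        · exfalso
          apply hd2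
          refine ⟨hw, ?_⟩
          rw [← fl_mul_of _ y hw (by rw [← e1]; exact hd3.1), ← e1]
          exact hd3.2
      · have e1 : g⁻¹ * d.fst = (g⁻¹ * d.snd) * FreeGroup.of y := by
          rw [hy, mul_assoc]
        by_cases hw : g⁻¹ * d.fst = 1
        · exfalso
          rw [hw] at e1
          have e2 : g⁻¹ * d.snd = (FreeGroup.of y)⁻¹ := by
            rw [eq_inv_iff_mul_eq_one]
            exact e1.symm
          have e3 := hd3.2
          rw [e2, fl_of_inv] at e3
          simp at e3
        · exfalso
          apply hd2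
          refine ⟨hw, ?_⟩
          rw [e1, fl_mul_of _ y hd3.1 (by rw [← e1]; exact hw)]
          exact hd3.2
    rintro g h ⟨x, hx | hx⟩
    · rw [hx]
      exact key g x
    · rw [hx, Sym2.eq_swap]
      exact key h x

end Pool.Agent.Lib.MP_836f52_al_H7.VF
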