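import Pool.Agent.Lib.MP_836f52_al_H7.VF.Opt

set_option autoImplicit false

/-!
The invariant nested family of optimal cuts.
-/

namespace Pool.Agent.Lib.MP_836f52_al_H7.VF

open scoped Pointwise

universe u v

variable {V : Type u} {B : Type v} [Group B] [MulAction B V]

lemma smul_compl (b : B) (C : Set V) : b • Cᶜ = (b • C)ᶜ := by
  ext x
  simp [Set.mem_smul_set_iff_inv_smul_mem]

lemma nested_smul {C D : Set V} (b : B) (h : Nested C D) : Nested (b • C) (b • D) := by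
  unfold Nested at *
  rw [← smul_compl, ← smul_compl]
  rcases h with h | h | h | h
  · exact Or.inl (Set.smul_set_mono h)
  · exact Or.inr (Or.inl (Set.smul_set_mono h))
  · exact Or.inr (Or.inr (Or.inl (Set.smul_set_mono h)))
  · exact Or.inr (Or.inr (Or.inr (Set.smul_set_mono h)))

lemma nested_smul_iff {C D : Set V} (b : B) : Nested (b • C) (b • D) ↔ Nested C D := by
  constructor
  · intro h
    have := nested_smul b⁻¹ h
    simpa using this
  · exact nested_smul b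

variable {Γ : SimpleGraph V}

lemma bd_smul (hact : ∀ (b : B) (x y : V), Γ.Adj x y → Γ.Adj (b • x) (b • y)) (b : B)
    (C : Set V) : bd Γ (b • C) = (fun e : V × V => (b • e.1, b • e.2)) '' bd Γ C := by
  ext ⟨x, y⟩
  simp only [bd, Set.mem_ofPred_eq, Set.mem_image, Prod.exists, Prod.mk.injEq,
    Set.mem_smul_set_iff_inv_smul_mem]
  constructor
  · rintro ⟨h1, h2, h3⟩
    exact ⟨b⁻¹ • x, b⁻¹ • y, ⟨hact _ _ _ h1, h2, h3⟩, by simp, by simp⟩
  · rintro ⟨a, c, ⟨h1, h2, h3⟩, rfl, rfl⟩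
    exact ⟨hact _ _ _ h1, by simpa using h2, by simpa using h3⟩

lemma pair_smul_injective (b : B) :
    Function.Injective (fun e : V × V => (b • e.1, b • e.2)) := by
  rintro ⟨x, y⟩ ⟨x', y'⟩ h
  simp only [Prod.mk.injEq] at h
  rw [Prod.mk.injEq]
  exact ⟨MulAction.injective b h.1, MulAction.injective b h.2⟩

lemma bd_smul_finite (hact : ∀ (b : B) (x y : V), Γ.Adj x y → Γ.Adj (b • x) (b • y)) (b : B)
    {C : Set V} (h : (bd Γ C).Finite) : (bd Γ (b • C)).Finite := by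
  rw [bd_smul hact]
  exact h.image _

lemma sz_smul (hact : ∀ (b : B) (x y : V), Γ.Adj x y → Γ.Adj (b • x) (b • y)) (b : B)
    (C : Set V) : sz Γ (b • C) = sz Γ C := by
  unfold sz
  rw [bd_smul hact]
  exact Set.ncard_image_of_injective _ (pair_smul_injective b)

lemma conn_smul (hact : ∀ (b : B) (x y : V), Γ.Adj x y → Γ.Adj (b • x) (b • y)) (b : B)
    {C : Set V} (h : Conn Γ C) : Conn Γ (b • C) := by
  intro x hx y hy
  rw [Set.mem_smul_set_iff_inv_smul_mem] at hx hy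
  have h1 := h _ hx _ hy
  have key : ∀ x y : V, Relation.ReflTransGen (fun a b => Γ.Adj a b ∧ a ∈ C ∧ b ∈ C) x y →
      Relation.ReflTransGen (fun a c => Γ.Adj a c ∧ a ∈ b • C ∧ c ∈ b • C) (b • x) (b • y) := by
    intro x y hxy
    induction hxy with
    | refl => exact Relation.ReflTransGen.refl
    | tail _ h ih =>
      refine ih.tail ⟨hact _ _ _ h.1, ?_, ?_⟩
      · exact Set.smul_mem_smul_set h.2.1
      · exact Set.smul_mem_smul_set h.2.2
  simpa using key _ _ h1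

lemma tight_smul (hact : ∀ (b : B) (x y : V), Γ.Adj x y → Γ.Adj (b • x) (b • y)) (b : B)
    {K : ℕ} {C : Set V} (h : C ∈ TightCuts Γ K) : b • C ∈ TightCuts Γ K := by
  refine ⟨conn_smul hact b h.1, ?_, bd_smul_finite hact b h.2.2.1, ?_⟩
  · rw [← smul_compl]
    exact conn_smul hact b h.2.1
  · rw [sz_smul hact]
    exact h.2.2.2

lemma cr_smul (hact : ∀ (b : B) (x y : V), Γ.Adj x y → Γ.Adj (b • x) (b • y)) (b : B)
    (K : ℕ) (C : Set V) : cr Γ K (b • C) = cr Γ K C := by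
  unfold cr
  have : {D | D ∈ TightCuts Γ K ∧ ¬ Nested (b • C) D} =
      (fun D => b • D) '' {D | D ∈ TightCuts Γ K ∧ ¬ Nested C D} := by
    ext D
    simp only [Set.mem_ofPred_eq, Set.mem_image]
    constructor
    · rintro ⟨h1, h2⟩
      refine ⟨b⁻¹ • D, ⟨tight_smul hact _ h1, ?_⟩, by simp⟩
      intro h
      apply h2
      have := nested_smul b h
      simpa using this
    · rintro ⟨E, ⟨h1, h2⟩, rfl⟩
      exact ⟨tight_smul hact _ h1, fun h => h2 ((nested_smul_iff b).1 h)⟩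
  rw [this]
  exact Set.ncard_image_of_injective _ (MulAction.injective b)

/-- translate of a point -/
def ptSmul (b : B) (p : Set V → Prop) : Set V → Prop := fun C => p (b⁻¹ • C)

lemma sep_smul (b : B) (p q : Set V → Prop) (C : Set V) :
    Sep (ptSmul b p) (ptSmul b q) (b • C) ↔ Sep p q C := by
  unfold Sep ptSmul
  simp

lemma sep_smul' (b : B) (p q : Set V → Prop) (C : Set V) :
    Sep (ptSmul b p) (ptSmul b q) C ↔ Sep p q (b⁻¹ • C) := by
  unfold Sep ptSmul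
  simp

lemma isMin_smul (hact : ∀ (b : B) (x y : V), Γ.Adj x y → Γ.Adj (b • x) (b • y)) (b : B)
    {p q : Set V → Prop} {C : Set V} (h : IsMin Γ p q C) :
    IsMin Γ (ptSmul b p) (ptSmul b q) (b • C) where
  fin := bd_smul_finite hact b h.fin
  sep := (sep_smul b p q C).2 h.sep
  le D hD hs := by
    rw [sz_smul hact]
    rw [sep_smul'] at hs
    have := h.le _ (bd_smul_finite hact b⁻¹ hD) hs
    rwa [sz_smul hact] at this

lemma isMin_smul' (hact : ∀ (b : B) (x y : V), Γ.Adj x y → Γ.Adj (b • x) (b • y)) (b : B)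
    {p q : Set V → Prop} {C : Set V} (h : IsMin Γ (ptSmul b p) (ptSmul b q) C) :
    IsMin Γ p q (b⁻¹ • C) where
  fin := bd_smul_finite hact _ h.fin
  sep := (sep_smul' b p q C).1 h.sep
  le D hD hs := by
    rw [sz_smul hact]
    have := h.le (b • D) (bd_smul_finite hact b hD) ((sep_smul b p q D).2 hs)
    rwa [sz_smul hact] at this

lemma isOpt_smul (hact : ∀ (b : B) (x y : V), Γ.Adj x y → Γ.Adj (b • x) (b • y)) (b : B)
    {K : ℕ} {p q : Set V → Prop} {C : Set V} (h : IsOpt Γ K p q C) :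
    IsOpt Γ K (ptSmul b p) (ptSmul b q) (b • C) where
  min := isMin_smul hact b h.min
  opt D hD := by
    rw [cr_smul hact]
    have := h.opt _ (isMin_smul' hact b hD)
    rwa [cr_smul hact] at this

/-- The invariant nested family of optimal cuts. -/
theorem exists_family (hΓ : Γ.Preconnected)
    (hact : ∀ (b : B) (x y : V), Γ.Adj x y → Γ.Adj (b • x) (b • y)) (K : ℕ)
    (A : (Set V → Prop) → (Set V → Prop) → Prop)
    (hA : ∀ p q, A p q → IsPt Γ p ∧ IsPt Γ q)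
    (hAK : ∀ p q, A p q → ∃ C, (bd Γ C).Finite ∧ Sep p q C ∧ sz Γ C ≤ K)
    (hAB : ∀ (b : B) (p q), A p q → A (ptSmul b p) (ptSmul b q)) :
    ∃ E : Set (Set V), (∀ C ∈ E, Cᶜ ∈ E) ∧ (∀ C ∈ E, ∀ D ∈ E, Nested C D) ∧
      (∀ C ∈ E, C ∈ TightCuts Γ K) ∧ (∀ C ∈ E, C.Nonempty) ∧
      (∀ (b : B), ∀ C ∈ E, b • C ∈ E) ∧ (∀ p q, A p q → ∃ C ∈ E, Sep p q C) := by
  have hK : ∀ p q, A p q → ∀ C, IsOpt Γ K p q C → sz Γ C ≤ K := by
    intro p q hpq C hC
    obtain ⟨D, h1, h2, h3⟩ := hAK p q hpq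
    exact (hC.min.le D h1 h2).trans h3
  refine ⟨{C | ∃ p q, A p q ∧ IsOpt Γ K p q C}, ?_, ?_, ?_, ?_, ?_, ?_⟩
  · rintro C ⟨p, q, h1, h2⟩
    exact ⟨p, q, h1, h2.compl (hA p q h1).1 (hA p q h1).2⟩
  · rintro C ⟨p, q, h1, h2⟩ D ⟨r, s, h3, h4⟩
    exact nested_of_isOpt hΓ (hA p q h1).1 (hA p q h1).2 (hA r s h3).1 (hA r s h3).2 h2 h4
      (hK _ _ h1 _ h2) (hK _ _ h3 _ h4)
  · rintro C ⟨p, q, h1, h2⟩
    exact tight_of_isMin hΓ (hA p q h1).1 (hA p q h1).2 h2.min (hK _ _ h1 _ h2)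
  · rintro C ⟨p, q, h1, h2⟩
    rw [Set.nonempty_iff_ne_empty]
    rintro rfl
    have key : ∀ p, IsPt Γ p → ¬ p ∅ := by
      intro p hp hcon
      have hb : (bd Γ (∅ : Set V)).Finite := h2.min.fin
      have e1 := hp.compl ∅ hb
      have e2 := hp.inter ∅ ∅ᶜ hb (bd_compl_finite hb)
      rw [Set.inter_compl_self] at e2
      exact (e1.1 (e2.1 hcon).2) hcon
    apply h2.min.sep
    exact ⟨fun h => absurd h (key p (hA p q h1).1), fun h => absurd h (key q (hA p q h1).2)⟩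
  · rintro b C ⟨p, q, h1, h2⟩
    exact ⟨_, _, hAB b p q h1, isOpt_smul hact b h2⟩
  · intro p q hpq
    obtain ⟨C, h1, h2, -⟩ := hAK p q hpq
    obtain ⟨D, hD⟩ := exists_isOpt Γ K ⟨C, h1, h2⟩
    exact ⟨D, ⟨p, q, hpq, hD⟩, hD.min.sep⟩

end Pool.Agent.Lib.MP_836f52_al_H7.VF
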