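import Pool.Agent.Lib.MP_836f52_al_H7.VF.DualTree
import Pool.Agent.Lib.MP_836f52_al_H7.VF.Family

set_option autoImplicit false

/-!
The tree of an invariant nested family of cuts.
-/

namespace Pool.Agent.Lib.MP_836f52_al_H7.VF

open scoped Pointwise

universe u v

variable {V : Type u}

/-- doubled halfspaces -/
structure Hs (E : Set (Set V)) where
  C : Set V
  i : Bool
  mem : C ∈ E

variable {E : Set (Set V)}

lemma Hs.ext' {p q : Hs E} (h1 : p.C = q.C) (h2 : p.i = q.i) : p = q := by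
  cases p
  cases q
  simp only at h1 h2
  subst h1
  subst h2
  rfl

instance : PartialOrder (Hs E) where
  le p q := p.C ⊂ q.C ∨ (p.C = q.C ∧ p.i ≤ q.i)
  le_refl p := Or.inr ⟨rfl, le_refl _⟩
  le_trans p q r := by
    rintro (h1 | h1) (h2 | h2)
    · exact Or.inl (h1.trans h2)
    · left
      rw [← h2.1]
      exact h1
    · left
      rw [h1.1]
      exact h2
    · exact Or.inr ⟨h1.1.trans h2.1, h1.2.trans h2.2⟩
  le_antisymm p q := by
    rintro (h1 | h1) (h2 | h2)
    · exact absurd (h1.trans h2) (ssubset_irrefl _)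
    · rw [h2.1] at h1
      exact absurd h1 (ssubset_irrefl _)
    · rw [h1.1] at h2
      exact absurd h2 (ssubset_irrefl _)
    · exact Hs.ext' h1.1 (le_antisymm h1.2 h2.2)

lemma Hs.le_def (p q : Hs E) : p ≤ q ↔ p.C ⊂ q.C ∨ (p.C = q.C ∧ p.i ≤ q.i) := Iff.rfl

lemma Hs.le_iff (p q : Hs E) : p ≤ q ↔ p.C ⊆ q.C ∧ (p.C = q.C → p.i ≤ q.i) := by
  rw [Hs.le_def]
  constructor
  · rintro (h | h)
    · exact ⟨h.subset, fun h' => by rw [h'] at h; exact absurd h (ssubset_irrefl _)⟩
    · exact ⟨h.1.subset, fun _ => h.2⟩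
  · rintro ⟨h1, h2⟩
    by_cases h : p.C = q.C
    · exact Or.inr ⟨h, h2 h⟩
    · exact Or.inl (h1.ssubset_of_ne h)

/-- the pocset of a nested family -/
def pocset (hcompl : ∀ C ∈ E, Cᶜ ∈ E) (hnest : ∀ C ∈ E, ∀ D ∈ E, Nested C D)
    (hne : ∀ C ∈ E, C.Nonempty) : NPoc (Hs E) where
  star p := ⟨p.Cᶜ, !p.i, hcompl _ p.mem⟩
  star_star p := Hs.ext' (compl_compl _) (Bool.not_not _)
  anti p q := by
    rw [Hs.le_iff, Hs.le_iff]
    rintro ⟨h1, h2⟩
    refine ⟨Set.compl_subset_compl.2 h1, fun h => ?_⟩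
    have h3 := h2 (compl_injective h).symm
    revert h3
    simp only
    cases p.i <;> cases q.i <;> decide
  nested p q := by
    simp only [Hs.le_iff]
    have hb : ∀ a b : Bool, a ≤ b ∨ b ≤ a := by decide
    have hb' : ∀ a b : Bool, b ≤ a → (!a) ≤ !b := by decide
    have hb2 : ∀ a b : Bool, a ≤ !b ∨ (!a) ≤ b := by decide
    rcases hnest _ p.mem _ q.mem with h | h | h | h
    · by_cases he : p.C = q.C
      · rcases hb p.i q.i with h1 | h1
        · exact Or.inl ⟨h, fun _ => h1⟩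
        · exact Or.inr (Or.inr (Or.inr ⟨by rw [he], fun _ => hb' _ _ h1⟩))
      · exact Or.inl ⟨h, fun h1 => absurd h1 he⟩
    · by_cases he : p.C = q.Cᶜ
      · rcases hb2 p.i q.i with h1 | h1
        · exact Or.inr (Or.inl ⟨h, fun _ => h1⟩)
        · exact Or.inr (Or.inr (Or.inl ⟨by rw [he, compl_compl], fun _ => h1⟩))
      · exact Or.inr (Or.inl ⟨h, fun h1 => absurd h1 he⟩)
    · by_cases he : p.Cᶜ = q.C
      · rcases hb2 p.i q.i with h1 | h1
        · exact Or.inr (Or.inl ⟨by rw [← he, compl_compl], fun _ => h1⟩)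
        · exact Or.inr (Or.inr (Or.inl ⟨h, fun _ => h1⟩))
      · exact Or.inr (Or.inr (Or.inl ⟨h, fun h1 => absurd h1 he⟩))
    · by_cases he : p.Cᶜ = q.Cᶜ
      · rcases hb p.i q.i with h1 | h1
        · exact Or.inl ⟨by rw [compl_injective he], fun _ => h1⟩
        · exact Or.inr (Or.inr (Or.inr ⟨h, fun _ => hb' _ _ h1⟩))
      · exact Or.inr (Or.inr (Or.inr ⟨h, fun h1 => absurd h1 he⟩))
  proper p := by
    rw [Hs.le_iff]
    rintro ⟨h1, -⟩
    obtain ⟨x, hx⟩ := hne _ p.mem
    exact h1 hx hx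

/-- principal orientation -/
def prin (E : Set (Set V)) (v : V) : Set (Hs E) := {p | v ∈ p.C}

variable {B : Type v} [Group B] [MulAction B V]

/-- the tree of a nested family of cuts -/
structure CutTree (B : Type v) [Group B] [MulAction B V] (E : Set (Set V)) where
  S : Type u
  T : SimpleGraph S
  action : MulAction B S
  f : V → S
  isTree : T.IsTree
  adj_smul : ∀ (b : B) (x y : S), T.Adj x y → T.Adj (b • x) (b • y)
  f_smul : ∀ (b : B) (v : V), f (b • v) = b • f v
  no_inv : ∀ (b : B) (x y : S), T.Adj x y → b • x = y → b • y = x → False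
  not_adj : ∀ u v : V, ¬ T.Adj (f u) (f v)
  edge : ∀ x y, T.Adj x y → ∃ C ∈ E, ∀ b : B, b • x = x → b • y = y → b • C = C
  sep : ∀ u v, f u = f v → ∀ C ∈ E, (u ∈ C ↔ v ∈ C)
  side : S → Set (Set V)
  side_smul : ∀ (x : S) (C : Set V) (b : B), C ∈ E → (b • C ∈ side (b • x) ↔ C ∈ side x)
  side_fin : ∀ (x : S) (v : V), {C | C ∈ E ∧ C ∈ side x ∧ v ∉ C}.Finite ∧
    {C | C ∈ E ∧ C ∉ side x ∧ v ∈ C}.Finite

theorem exists_cutTree [Nonempty V] (hcompl : ∀ C ∈ E, Cᶜ ∈ E)
    (hnest : ∀ C ∈ E, ∀ D ∈ E, Nested C D)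
    (hne : ∀ C ∈ E, C.Nonempty) (hfin : ∀ u v, {C | C ∈ E ∧ u ∈ C ∧ v ∉ C}.Finite)
    (hB : ∀ (b : B), ∀ C ∈ E, b • C ∈ E) : Nonempty (CutTree B E) := by
  classical
  let Q : NPoc (Hs E) := pocset hcompl hnest hne
  have hstarC : ∀ p : Hs E, (Q.star p).C = p.Cᶜ := fun p => rfl
  have hstari : ∀ p : Hs E, (Q.star p).i = !p.i := fun p => rfl
  obtain ⟨v0⟩ := ‹Nonempty V›
  have hprin : ∀ v, Q.IsOr (prin E v) := by
    intro v
    constructor
    · intro p
      simp only [prin, Set.mem_ofPred_eq, hstarC, Set.mem_compl_iff, not_not]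
    · intro p q hp hpq
      rw [Hs.le_iff] at hpq
      exact hpq.1 hp
  have hprinfin : ∀ u v, (prin E u \ prin E v).Finite := by
    intro u v
    have : Set.InjOn (fun p : Hs E => (p.C, p.i)) (prin E u \ prin E v) := by
      intro p _ q _ h
      simp only [Prod.mk.injEq] at h
      exact Hs.ext' h.1 h.2
    apply Set.Finite.of_finite_image _ this
    apply ((hfin u v).prod (Set.finite_univ (α := Bool))).subset
    rintro ⟨C, i⟩ ⟨p, ⟨h1, h2⟩, h3⟩
    simp only [Prod.mk.injEq] at h3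
    obtain ⟨rfl, rfl⟩ := h3
    exact ⟨⟨p.mem, h1, h2⟩, Set.mem_univ _⟩
  -- action on halfspaces
  let sm : B → Hs E → Hs E := fun b p => ⟨b • p.C, p.i, hB b _ p.mem⟩
  have sm_mul : ∀ b b' p, sm (b * b') p = sm b (sm b' p) := by
    intro b b' p
    apply Hs.ext'
    · exact mul_smul b b' p.C
    · rfl
  have sm_one : ∀ p, sm 1 p = p := by
    intro p
    apply Hs.ext'
    · exact one_smul B p.C
    · rfl
  have sm_star : ∀ b p, sm b (Q.star p) = Q.star (sm b p) := by
    intro b p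
    apply Hs.ext'
    · exact smul_compl b p.C
    · rfl
  have sm_mono : ∀ b p q, p ≤ q → sm b p ≤ sm b q := by
    intro b p q h
    rw [Hs.le_iff] at h ⊢
    refine ⟨Set.smul_set_mono h.1, fun h' => h.2 ?_⟩
    exact MulAction.injective b h'
  have sm_inj : ∀ b, Function.Injective (sm b) := by
    intro b p q h
    have := congrArg (sm b⁻¹) h
    rwa [← sm_mul, ← sm_mul, inv_mul_cancel, sm_one, sm_one] at this
  -- action on sets of halfspaces
  let ac : B → Set (Hs E) → Set (Hs E) := fun b o => {p | sm b⁻¹ p ∈ o}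
  have ac_or : ∀ b o, Q.IsOr o → Q.IsOr (ac b o) := by
    intro b o ho
    constructor
    · intro p
      change sm b⁻¹ p ∈ o ↔ ¬ (sm b⁻¹ (Q.star p) ∈ o)
      rw [sm_star]
      exact ho.1 _
    · intro p q hp hpq
      exact ho.2 _ _ hp (sm_mono b⁻¹ _ _ hpq)
  have ac_prin : ∀ b v, ac b (prin E v) = prin E (b • v) := by
    intro b v
    ext p
    change v ∈ b⁻¹ • p.C ↔ b • v ∈ p.C
    rw [Set.mem_smul_set_iff_inv_smul_mem, inv_inv]
  have ac_fin : ∀ b o, (o \ prin E v0).Finite → (ac b o \ prin E v0).Finite := by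
    intro b o ho
    have h1 : (ac b o \ ac b (prin E v0)).Finite := by
      have : ac b o \ ac b (prin E v0) ⊆ sm b '' (o \ prin E v0) := by
        rintro p ⟨h1, h2⟩
        refine ⟨sm b⁻¹ p, ⟨h1, h2⟩, ?_⟩
        rw [← sm_mul, mul_inv_cancel, sm_one]
      exact (ho.image _).subset this
    rw [ac_prin] at h1
    apply (h1.union (hprinfin (b • v0) v0)).subset
    rintro p ⟨h2, h3⟩
    by_cases h : p ∈ prin E (b • v0)
    · exact Or.inr ⟨h, h3⟩
    · exact Or.inl ⟨h2, h⟩
  let act : MulAction B (Q.Vert (prin E v0)) :=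
    { smul := fun b x => ⟨ac b x.1, ac_or b _ x.2.1, ac_fin b _ x.2.2⟩
      one_smul := fun x => by
        apply Subtype.ext
        change ac 1 x.1 = x.1
        ext p
        change sm 1⁻¹ p ∈ x.1 ↔ _
        rw [inv_one, sm_one]
      mul_smul := fun b b' x => by
        apply Subtype.ext
        change ac (b * b') x.1 = ac b (ac b' x.1)
        ext p
        change sm (b * b')⁻¹ p ∈ x.1 ↔ sm b'⁻¹ (sm b⁻¹ p) ∈ x.1
        rw [mul_inv_rev, sm_mul] }
  have hact : ∀ (b : B) (x : Q.Vert (prin E v0)) (p : Hs E), p ∈ (b • x).1 ↔ sm b⁻¹ p ∈ x.1 :=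
    fun b x p => Iff.rfl
  have hact' : ∀ (b : B) (x : Q.Vert (prin E v0)) (p : Hs E), sm b p ∈ (b • x).1 ↔ p ∈ x.1 := by
    intro b x p
    rw [hact, ← sm_mul, inv_mul_cancel, sm_one]
  have hsub : ∀ (x y : Q.Vert (prin E v0)) (p : Hs E), p ∈ x.1 → y.1 = Q.flip p x.1 →
      ∀ q, (q ∈ x.1 ∧ q ∉ y.1) ↔ q = p := by
    intro x y p hp hy q
    rw [hy, NPoc.mem_flip]
    constructor
    · rintro ⟨h1, h2⟩
      by_contra h3
      exact h2 (Or.inr ⟨h1, h3⟩)
    · rintro rfl
      refine ⟨hp, ?_⟩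
      rintro (h | h)
      · exact NPoc.ne_star _ h
      · exact h.2 rfl
  refine ⟨{ S := Q.Vert (prin E v0)
            T := Q.graph (prin E v0)
            action := act
            f := fun v => ⟨prin E v, hprin v, hprinfin v v0⟩
            isTree := NPoc.isTree (hprin v0)
            adj_smul := ?_
            f_smul := ?_
            no_inv := ?_
            not_adj := ?_
            edge := ?_
            sep := ?_
            side := fun x => {C | ∃ h : C ∈ E, (⟨C, true, h⟩ : Hs E) ∈ x.1}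
            side_smul := ?_
            side_fin := ?_ }⟩
  · rintro b x y ⟨p, hp, hy⟩
    refine ⟨sm b p, (hact' b x p).2 hp, ?_⟩
    ext q
    rw [hact, hy, NPoc.mem_flip, NPoc.mem_flip, hact]
    have e1 : sm b⁻¹ q = Q.star p ↔ q = Q.star (sm b p) := by
      rw [← sm_star]
      constructor
      · intro h
        rw [← h, ← sm_mul, mul_inv_cancel, sm_one]
      · intro h
        rw [h, ← sm_mul, inv_mul_cancel, sm_one]
    have e2 : sm b⁻¹ q ≠ p ↔ q ≠ sm b p := by
      constructor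
      · intro h h'
        apply h
        rw [h', ← sm_mul, inv_mul_cancel, sm_one]
      · intro h h'
        apply h
        rw [← h', ← sm_mul, mul_inv_cancel, sm_one]
    rw [e1, e2]
  · intro b v
    apply Subtype.ext
    exact (ac_prin b v).symm
  · rintro b x y ⟨p, hp, hy⟩ h1 h2
    have hpy : p ∉ y.1 := ((hsub x y p hp hy p).2 rfl).2
    have k1 : sm b p ∈ y.1 := by
      rw [← h1]
      exact (hact' b x p).2 hp
    have k2 : sm b p ∉ x.1 := by
      rw [← h2]
      intro h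
      exact hpy ((hact' b y p).1 h)
    rw [hy, NPoc.mem_flip] at k1
    rcases k1 with k1 | k1
    · have := congrArg Hs.i k1
      rw [hstari] at this
      change p.i = !p.i at this
      revert this
      cases p.i <;> simp
    · exact k2 k1.1
  · rintro u v ⟨p, hp, hy⟩
    have h1 := (hsub _ _ p hp hy p).2 rfl
    let q : Hs E := ⟨p.C, !p.i, p.mem⟩
    have h2 : q = p := (hsub _ _ p hp hy q).1 h1
    have := congrArg Hs.i h2
    change (!p.i) = p.i at this
    revert this
    cases p.i <;> simp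
  · rintro x y ⟨p, hp, hy⟩
    refine ⟨p.C, p.mem, ?_⟩
    intro b h1 h2
    have h3 := (hsub x y p hp hy p).2 rfl
    have h4 : sm b p = p := by
      rw [← hsub x y p hp hy]
      constructor
      · rw [← h1]
        exact (hact' b x p).2 h3.1
      · intro h
        rw [← h2] at h
        exact h3.2 ((hact' b y p).1 h)
    exact congrArg Hs.C h4
  · intro u v h C hC
    have h1 := congrArg Subtype.val h
    have h2 : (⟨C, true, hC⟩ : Hs E) ∈ prin E u ↔ (⟨C, true, hC⟩ : Hs E) ∈ prin E v := by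
      simp only at h1
      rw [h1]
    exact h2
  · intro x C b hC
    constructor
    · rintro ⟨h, h'⟩
      refine ⟨hC, ?_⟩
      rw [← hact' b x]
      exact h'
    · rintro ⟨h, h'⟩
      refine ⟨hB b C hC, ?_⟩
      have := (hact' b x _).2 h'
      exact this
  · intro x v
    have hx : ∀ o : Set (Hs E), o.Finite → (Hs.C '' o).Finite := fun o ho => ho.image _
    constructor
    · have h1 : (x.1 \ prin E v).Finite :=
        NPoc.diff_finite (hprin v0) x ⟨prin E v, hprin v, hprinfin v v0⟩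
      apply (hx _ h1).subset
      rintro C ⟨hC, ⟨h, h'⟩, hv⟩
      exact ⟨⟨C, true, h⟩, ⟨h', hv⟩, rfl⟩
    · have h1 : (prin E v \ x.1).Finite :=
        NPoc.diff_finite (hprin v0) ⟨prin E v, hprin v, hprinfin v v0⟩ x
      apply (hx _ h1).subset
      rintro C ⟨hC, h', hv⟩
      refine ⟨⟨C, true, hC⟩, ⟨hv, fun h => h' ⟨hC, h⟩⟩, rfl⟩

end Pool.Agent.Lib.MP_836f52_al_H7.VF
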