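import Mathlib

set_option autoImplicit false

/-!
Finite cuts in connected graphs: minimal and optimal cuts, after Dunwoody and Diekert-Weiss.
-/

namespace Pool.Agent.Lib.MP_836f52_al_H7.VF

universe u v

variable {V : Type u}

/-- oriented edge boundary -/
def bd (Γ : SimpleGraph V) (C : Set V) : Set (V × V) := {e | Γ.Adj e.1 e.2 ∧ e.1 ∈ C ∧ e.2 ∉ C}

/-- connectedness of a set of vertices -/
def Conn (Γ : SimpleGraph V) (C : Set V) : Prop :=
  ∀ x ∈ C, ∀ y ∈ C, Relation.ReflTransGen (fun a b => Γ.Adj a b ∧ a ∈ C ∧ b ∈ C) x y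

lemma bd_compl (Γ : SimpleGraph V) (C : Set V) : bd Γ Cᶜ = Prod.swap '' bd Γ C := by
  ext ⟨a, b⟩
  simp only [bd, Set.mem_ofPred_eq, Set.mem_compl_iff, not_not, Set.mem_image, Prod.exists,
    Prod.swap_prod_mk, Prod.mk.injEq]
  constructor
  · rintro ⟨h1, h2, h3⟩
    exact ⟨b, a, ⟨h1.symm, h3, h2⟩, rfl, rfl⟩
  · rintro ⟨x, y, ⟨h1, h2, h3⟩, rfl, rfl⟩
    exact ⟨h1.symm, h3, h2⟩

lemma bd_compl_finite {Γ : SimpleGraph V} {C : Set V} (h : (bd Γ C).Finite) :
    (bd Γ Cᶜ).Finite := by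
  rw [bd_compl]
  exact h.image _

/-- size of a cut -/
noncomputable def sz (Γ : SimpleGraph V) (C : Set V) : ℕ := (bd Γ C).ncard

lemma sz_compl (Γ : SimpleGraph V) (C : Set V) : sz Γ Cᶜ = sz Γ C := by
  unfold sz
  rw [bd_compl]
  exact Set.ncard_image_of_injective _ Prod.swap_injective

lemma bd_inter_union_subset (Γ : SimpleGraph V) (C D : Set V) :
    bd Γ (C ∩ D) ∪ bd Γ (C ∪ D) ⊆ bd Γ C ∪ bd Γ D := by
  rintro ⟨a, b⟩ h
  simp only [bd, Set.mem_union, Set.mem_ofPred_eq, Set.mem_inter_iff] at h ⊢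
  tauto

lemma bd_inter_union_subset' (Γ : SimpleGraph V) (C D : Set V) :
    bd Γ (C ∩ D) ∩ bd Γ (C ∪ D) ⊆ bd Γ C ∩ bd Γ D := by
  rintro ⟨a, b⟩ h
  simp only [bd, Set.mem_union, Set.mem_ofPred_eq, Set.mem_inter_iff] at h ⊢
  tauto

lemma bd_inter_finite {Γ : SimpleGraph V} {C D : Set V} (hC : (bd Γ C).Finite)
    (hD : (bd Γ D).Finite) : (bd Γ (C ∩ D)).Finite :=
  (hC.union hD).subset (Set.subset_union_left.trans (bd_inter_union_subset Γ C D))

lemma bd_union_finite {Γ : SimpleGraph V} {C D : Set V} (hC : (bd Γ C).Finite)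
    (hD : (bd Γ D).Finite) : (bd Γ (C ∪ D)).Finite :=
  (hC.union hD).subset (Set.subset_union_right.trans (bd_inter_union_subset Γ C D))

lemma sz_submodular {Γ : SimpleGraph V} {C D : Set V} (hC : (bd Γ C).Finite)
    (hD : (bd Γ D).Finite) : sz Γ (C ∩ D) + sz Γ (Cᶜ ∩ Dᶜ) ≤ sz Γ C + sz Γ D := by
  have e : Cᶜ ∩ Dᶜ = (C ∪ D)ᶜ := by
    rw [Set.compl_union]
  rw [e, sz_compl]
  unfold sz
  have h1 := Set.ncard_union_add_ncard_inter (bd Γ (C ∩ D)) (bd Γ (C ∪ D))
    (bd_inter_finite hC hD) (bd_union_finite hC hD)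
  have h2 := Set.ncard_union_add_ncard_inter (bd Γ C) (bd Γ D) hC hD
  have h3 := Set.ncard_le_ncard (bd_inter_union_subset Γ C D) (hC.union hD)
  have h4 := Set.ncard_le_ncard (bd_inter_union_subset' Γ C D) (hC.inter_of_left _)
  omega

/-- tight cuts of bounded size through a fixed edge are finite in number -/
theorem tight_finite : ∀ (k : ℕ) (Γ : SimpleGraph V) (u v : V),
    {C : Set V | Conn Γ C ∧ Conn Γ Cᶜ ∧ (bd Γ C).encard ≤ k ∧ (u, v) ∈ bd Γ C}.Finite := by
  intro k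
  induction k with
  | zero =>
    intro Γ u v
    convert Set.finite_empty
    ext C
    simp only [Set.mem_ofPred_eq, Set.mem_empty_iff_false, iff_false]
    rintro ⟨-, -, h, h'⟩
    have : (bd Γ C).encard = 0 := by simpa using h
    rw [Set.encard_eq_zero] at this
    rw [this] at h'
    exact h'
  | succ k ih =>
    intro Γ u v
    set Γ' : SimpleGraph V := Γ.deleteEdges {s(u, v)} with hΓ'
    have hadj : ∀ a b, Γ'.Adj a b ↔ Γ.Adj a b ∧ s(a, b) ≠ s(u, v) := by
      intro a b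
      rw [hΓ', SimpleGraph.deleteEdges_adj]
      simp
    have hconn : ∀ C : Set V, (u ∉ C ∨ v ∉ C) → Conn Γ C → Conn Γ' C := by
      intro C huv hC x hx y hy
      refine Relation.ReflTransGen.mono ?_ _ _ (hC x hx y hy)
      rintro a b ⟨h1, h2, h3⟩
      refine ⟨(hadj a b).2 ⟨h1, ?_⟩, h2, h3⟩
      intro h4
      rw [Sym2.eq_iff] at h4
      rcases h4 with ⟨rfl, rfl⟩ | ⟨rfl, rfl⟩
      · rcases huv with h | h
        · exact h h2
        · exact h h3
      · rcases huv with h | h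
        · exact h h3
        · exact h h2
    have hreach : ∀ (C : Set V) (x y : V),
        Relation.ReflTransGen (fun a b => Γ'.Adj a b ∧ a ∈ C ∧ b ∈ C) x y → Γ'.Reachable x y := by
      intro C x y h
      induction h with
      | refl => exact SimpleGraph.Reachable.refl _
      | tail _ h ih => exact ih.trans h.1.reachable
    by_cases hr : Γ'.Reachable u v
    · obtain ⟨p⟩ := hr
      apply Set.Finite.subset (s := ⋃ d ∈ {d | d ∈ p.darts},
        {C : Set V | Conn Γ' C ∧ Conn Γ' Cᶜ ∧ (bd Γ' C).encard ≤ k ∧ (d.fst, d.snd) ∈ bd Γ' C})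
      · apply Set.Finite.biUnion (List.finite_toSet _)
        intro d _
        exact ih Γ' d.fst d.snd
      · rintro C ⟨h1, h2, h3, h4⟩
        obtain ⟨h5, h6, h7⟩ := h4
        simp only at h5 h6 h7
        obtain ⟨d, hd1, hd2, hd3⟩ := p.exists_boundary_dart C h6 h7
        simp only [Set.mem_iUnion]
        refine ⟨d, hd1, hconn C (Or.inr h7) h1, hconn Cᶜ (Or.inl (fun h => h h6)) h2, ?_, ?_⟩
        · have hsub : bd Γ' C ⊆ bd Γ C \ {(u, v)} := by
            rintro ⟨a, b⟩ ⟨k1, k2, k3⟩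
            simp only at k1 k2 k3
            rw [hadj] at k1
            refine ⟨⟨k1.1, k2, k3⟩, ?_⟩
            intro h
            simp only [Set.mem_singleton_iff, Prod.mk.injEq] at h
            apply k1.2
            rw [h.1, h.2]
          have h8 : (bd Γ C \ {(u, v)}).encard + 1 = (bd Γ C).encard :=
            Set.encard_sdiff_singleton_add_one ⟨h5, h6, h7⟩
          have h9 := Set.encard_le_encard hsub
          have h10 : (bd Γ C \ {(u, v)}).encard + 1 ≤ (k : ℕ∞) + 1 := by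
            rw [h8]
            exact_mod_cast h3
          exact h9.trans ((ENat.add_le_add_iff_right (by simp)).1 h10)
        · exact ⟨d.adj, hd2, hd3⟩
    · apply Set.Finite.subset (Set.finite_singleton {x | Γ'.Reachable u x})
      rintro C ⟨h1, h2, h3, h4⟩
      obtain ⟨h5, h6, h7⟩ := h4
      simp only at h5 h6 h7
      rw [Set.mem_singleton_iff]
      ext x
      constructor
      · intro hx
        exact hreach _ _ _ (hconn C (Or.inr h7) h1 u h6 x hx)
      · intro hx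
        by_contra hxC
        exact hr (hx.trans (hreach _ _ _
          (hconn Cᶜ (Or.inl (fun h => h h6)) h2 x hxC v h7)))

/-- two sets are nested if one of the four corners is empty -/
def Nested (C D : Set V) : Prop := C ⊆ D ∨ C ⊆ Dᶜ ∨ Cᶜ ⊆ D ∨ Cᶜ ⊆ Dᶜ

lemma Nested.symm {C D : Set V} (h : Nested C D) : Nested D C := by
  rcases h with h | h | h | h
  · exact Or.inr (Or.inr (Or.inr (Set.compl_subset_compl.2 h)))
  · refine Or.inr (Or.inl ?_)
    rw [Set.subset_compl_comm]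
    exact h
  · refine Or.inr (Or.inr (Or.inl ?_))
    rw [Set.compl_subset_comm]
    exact h
  · exact Or.inl (Set.compl_subset_compl.1 h)

lemma nested_compl_right {C D : Set V} : Nested C Dᶜ ↔ Nested C D := by
  unfold Nested
  rw [compl_compl]
  tauto

lemma nested_compl_left {C D : Set V} : Nested Cᶜ D ↔ Nested C D := by
  unfold Nested
  rw [compl_compl]
  tauto

lemma nested_comm {C D : Set V} : Nested C D ↔ Nested D C := ⟨Nested.symm, Nested.symm⟩

/-- the family of tight cuts of size at most `K` -/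
def TightCuts (Γ : SimpleGraph V) (K : ℕ) : Set (Set V) :=
  {C | Conn Γ C ∧ Conn Γ Cᶜ ∧ (bd Γ C).Finite ∧ sz Γ C ≤ K}

lemma encard_le_of_tight {Γ : SimpleGraph V} {K : ℕ} {C : Set V} (h : C ∈ TightCuts Γ K) :
    (bd Γ C).encard ≤ K := by
  obtain ⟨-, -, h1, h2⟩ := h
  rw [← h1.cast_ncard_eq]
  exact_mod_cast h2

lemma tightCuts_compl {Γ : SimpleGraph V} {K : ℕ} {C : Set V} (h : C ∈ TightCuts Γ K) :
    Cᶜ ∈ TightCuts Γ K := by
  obtain ⟨h1, h2, h3, h4⟩ := h
  refine ⟨h2, by rwa [compl_compl], bd_compl_finite h3, ?_⟩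
  rwa [sz_compl]

lemma tight_finite' (Γ : SimpleGraph V) (K : ℕ) (u v : V) :
    {C | C ∈ TightCuts Γ K ∧ (u, v) ∈ bd Γ C}.Finite := by
  apply (tight_finite K Γ u v).subset
  rintro C ⟨h1, h2⟩
  exact ⟨h1.1, h1.2.1, encard_le_of_tight h1, h2⟩

lemma tight_sep_finite {Γ : SimpleGraph V} (hΓ : Γ.Preconnected) (K : ℕ) (u v : V) :
    {C | C ∈ TightCuts Γ K ∧ u ∈ C ∧ v ∉ C}.Finite := by
  obtain ⟨p⟩ := hΓ u v
  apply Set.Finite.subset (s := ⋃ d ∈ {d | d ∈ p.darts},
    {C | C ∈ TightCuts Γ K ∧ (d.fst, d.snd) ∈ bd Γ C})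
  · apply Set.Finite.biUnion (List.finite_toSet _)
    intro d _
    exact tight_finite' Γ K _ _
  · rintro C ⟨h1, h2, h3⟩
    obtain ⟨d, hd1, hd2, hd3⟩ := p.exists_boundary_dart C h2 h3
    simp only [Set.mem_iUnion]
    exact ⟨d, hd1, h1, d.adj, hd2, hd3⟩

/-- a connected set that misses all endpoints of the boundary of `C` lies on one side of `C` -/
lemma conn_side {Γ : SimpleGraph V} {C D : Set V} (hD : Conn Γ D)
    (h : ∀ a b, (a, b) ∈ bd Γ C → a ∉ D) : D ⊆ C ∨ D ⊆ Cᶜ := by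
  by_contra hcon
  push Not at hcon
  obtain ⟨h1, h2⟩ := hcon
  rw [Set.not_subset] at h1 h2
  obtain ⟨x, hx1, hx2⟩ := h1
  obtain ⟨y, hy1, hy2⟩ := h2
  simp only [Set.mem_compl_iff, not_not] at hy2
  have key : ∀ z, Relation.ReflTransGen (fun a b => Γ.Adj a b ∧ a ∈ D ∧ b ∈ D) y z → z ∈ C := by
    intro z hz
    induction hz with
    | refl => exact hy2
    | tail _ hbc ih =>
      by_contra hc
      exact h _ _ ⟨hbc.1, ih, hc⟩ hbc.2.1
  exact hx2 (key x (hD y hy1 x hx1))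

lemma crossing_finite {Γ : SimpleGraph V} (hΓ : Γ.Preconnected) (K : ℕ) {C : Set V}
    (hC : (bd Γ C).Finite) : {D | D ∈ TightCuts Γ K ∧ ¬ Nested C D}.Finite := by
  classical
  rcases (bd Γ C).eq_empty_or_nonempty with h0 | ⟨⟨z0, z1⟩, hz⟩
  · convert Set.finite_empty
    ext D
    simp only [Set.mem_ofPred_eq, Set.mem_empty_iff_false, iff_false]
    rintro ⟨h1, h2⟩
    apply h2
    have := conn_side (C := C) h1.1 (fun a b hab => by rw [h0] at hab; exact absurd hab (by simp))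
    apply Nested.symm
    rcases this with h | h
    · exact Or.inl h
    · exact Or.inr (Or.inl h)
  · choose w hw using fun z => (⟨(hΓ z0 z).some, trivial⟩ : ∃ _ : Γ.Walk z0 z, True)
    apply Set.Finite.subset (s := (⋃ e ∈ bd Γ C, ⋃ d ∈ {d | d ∈ (w e.1).darts},
      ({D | D ∈ TightCuts Γ K ∧ (d.fst, d.snd) ∈ bd Γ D} ∪
        compl '' {D | D ∈ TightCuts Γ K ∧ (d.fst, d.snd) ∈ bd Γ D})) ∪
      (⋃ e ∈ bd Γ C, ⋃ d ∈ {d | d ∈ (w e.2).darts},
      ({D | D ∈ TightCuts Γ K ∧ (d.fst, d.snd) ∈ bd Γ D} ∪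
        compl '' {D | D ∈ TightCuts Γ K ∧ (d.fst, d.snd) ∈ bd Γ D})))
    · refine Set.Finite.union ?_ ?_ <;>
      · apply hC.biUnion
        intro e _
        apply Set.Finite.biUnion (List.finite_toSet _)
        intro d _
        exact (tight_finite' Γ K _ _).union ((tight_finite' Γ K _ _).image _)
    · rintro D ⟨h1, h2⟩
      -- `D` separates `z0` from some endpoint
      have key : ∃ e ∈ bd Γ C, (¬ (z0 ∈ D ↔ e.1 ∈ D)) ∨ ¬ (z0 ∈ D ↔ e.2 ∈ D) := by
        by_contra hcon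
        push Not at hcon
        apply h2
        by_cases hz0 : z0 ∈ D
        · have : Dᶜ ⊆ C ∨ Dᶜ ⊆ Cᶜ := by
            apply conn_side h1.2.1
            intro a b hab ha
            exact ha (((hcon _ hab).1).1 hz0)
          apply Nested.symm
          rcases this with h | h
          · exact Or.inr (Or.inr (Or.inl h))
          · exact Or.inr (Or.inr (Or.inr h))
        · have : D ⊆ C ∨ D ⊆ Cᶜ := by
            apply conn_side h1.1
            intro a b hab ha
            exact hz0 (((hcon _ hab).1).2 ha)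
          apply Nested.symm
          rcases this with h | h
          · exact Or.inl h
          · exact Or.inr (Or.inl h)
      have sub : ∀ z, ¬ (z0 ∈ D ↔ z ∈ D) → ∃ d ∈ (w z).darts,
          D ∈ ({D | D ∈ TightCuts Γ K ∧ (d.fst, d.snd) ∈ bd Γ D} ∪
            compl '' {D | D ∈ TightCuts Γ K ∧ (d.fst, d.snd) ∈ bd Γ D}) := by
        intro z hzz
        by_cases hz0 : z0 ∈ D
        · have hzD : z ∉ D := fun h => hzz ⟨fun _ => h, fun _ => hz0⟩
          obtain ⟨d, hd1, hd2, hd3⟩ := (w z).exists_boundary_dart D hz0 hzD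
          exact ⟨d, hd1, Or.inl ⟨h1, d.adj, hd2, hd3⟩⟩
        · have hzD : z ∈ D := by
            by_contra h
            exact hzz ⟨fun h' => absurd h' hz0, fun h' => absurd h' h⟩
          obtain ⟨d, hd1, hd2, hd3⟩ := (w z).exists_boundary_dart Dᶜ hz0 (fun h => h hzD)
          exact ⟨d, hd1, Or.inr ⟨Dᶜ, ⟨tightCuts_compl h1, d.adj, hd2, hd3⟩, compl_compl D⟩⟩
      obtain ⟨e, he, h3 | h3⟩ := key
      · left
        obtain ⟨d, hd, hd'⟩ := sub _ h3
        simp only [Set.mem_iUnion]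
        exact ⟨e, he, d, hd, hd'⟩
      · right
        obtain ⟨d, hd, hd'⟩ := sub _ h3
        simp only [Set.mem_iUnion]
        exact ⟨e, he, d, hd, hd'⟩

end Pool.Agent.Lib.MP_836f52_al_H7.VF
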