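import Mathlib

set_option autoImplicit false

/-!
The dual tree of a nested pocset.
-/

namespace Pool.Agent.Lib.MP_836f52_al_H7.VF

universe u v

variable {P : Type u} [PartialOrder P]

/-- a nested pocset -/
structure NPoc (P : Type u) [PartialOrder P] where
  star : P → P
  star_star : ∀ p, star (star p) = p
  anti : ∀ p q, p ≤ q → star q ≤ star p
  nested : ∀ p q, p ≤ q ∨ p ≤ star q ∨ star p ≤ q ∨ star p ≤ star q
  proper : ∀ p, ¬ p ≤ star p

namespace NPoc

variable (S : NPoc P)

/-- orientations -/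
def IsOr (o : Set P) : Prop := (∀ p, p ∈ o ↔ S.star p ∉ o) ∧ ∀ p q, p ∈ o → p ≤ q → q ∈ o

/-- vertices of the dual tree -/
def Vert (o₀ : Set P) : Type u := {o : Set P // S.IsOr o ∧ (o \ o₀).Finite}

variable {S}

lemma ne_star (p : P) : p ≠ S.star p := fun h => S.proper p h.le

lemma not_star_le (p : P) : ¬ S.star p ≤ p := by
  intro h
  apply S.proper (S.star p)
  rwa [S.star_star]

lemma diff_comm_finite {o o' : Set P} (ho : S.IsOr o) (ho' : S.IsOr o') (h : (o \ o').Finite) :
    (o' \ o).Finite := by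
  apply (h.image S.star).subset
  rintro p ⟨h1, h2⟩
  refine ⟨S.star p, ⟨?_, ?_⟩, S.star_star p⟩
  · by_contra h3
    exact h2 ((ho.1 p).2 h3)
  · exact (ho'.1 p).1 h1

lemma diff_finite {o₀ : Set P} (h₀ : S.IsOr o₀) (x y : S.Vert o₀) : (x.1 \ y.1).Finite := by
  apply (x.2.2.union (diff_comm_finite y.2.1 h₀ y.2.2)).subset
  rintro p ⟨h1, h2⟩
  by_cases h : p ∈ o₀
  · exact Or.inr ⟨h, h2⟩
  · exact Or.inl ⟨h1, h⟩

/-- flipping -/
def flip (S : NPoc P) (p : P) (o : Set P) : Set P := insert (S.star p) (o \ {p})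

lemma mem_flip {p : P} {o : Set P} {q : P} : q ∈ S.flip p o ↔ q = S.star p ∨ (q ∈ o ∧ q ≠ p) := by
  unfold flip
  simp

/-- the dual graph -/
def graph (S : NPoc P) (o₀ : Set P) : SimpleGraph (S.Vert o₀) where
  Adj x y := ∃ p, p ∈ x.1 ∧ y.1 = S.flip p x.1
  symm := ⟨by
    rintro x y ⟨p, hp, h⟩
    refine ⟨S.star p, ?_, ?_⟩
    · rw [h, mem_flip]
      exact Or.inl rfl
    · rw [h]
      ext q
      rw [mem_flip, mem_flip, S.star_star]
      constructor
      · intro hq
        by_cases hqp : q = p
        · exact Or.inl hqp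
        · right
          refine ⟨Or.inr ⟨hq, hqp⟩, ?_⟩
          rintro rfl
          exact (x.2.1.1 p).1 hp hq
      · rintro (rfl | ⟨hq | hq, hq2⟩)
        · exact hp
        · exact absurd hq hq2
        · exact hq.1⟩
  loopless := ⟨by
    rintro x ⟨p, hp, h⟩
    have : S.star p ∈ x.1 := by
      rw [h, mem_flip]
      exact Or.inl rfl
    exact (x.2.1.1 p).1 hp this⟩

lemma flip_unique {o₀ : Set P} {x y x' y' : S.Vert o₀} {p : P} (hx : p ∈ x.1)
    (hy : y.1 = S.flip p x.1) (hx' : p ∈ x'.1) (hy' : y'.1 = S.flip p x'.1) : x = x' := by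
  have key : ∀ {x y : S.Vert o₀}, p ∈ x.1 → y.1 = S.flip p x.1 → ∀ q, q ≠ p → q ≠ S.star p →
      (q ∈ x.1 ↔ (p ≤ q ∨ S.star p ≤ q)) := by
    intro x y hx hy q h1 h2
    have hpy : S.star p ∈ y.1 := by
      rw [hy, mem_flip]
      exact Or.inl rfl
    have hup : ∀ r, r ≠ S.star p → S.star p ≤ r → r ∈ x.1 := by
      intro r hr hle
      have : r ∈ y.1 := y.2.1.2 _ _ hpy hle
      rw [hy, mem_flip] at this
      rcases this with h | h
      · exact absurd h hr
      · exact h.1
    constructor
    · intro hq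
      rcases S.nested p q with h | h | h | h
      · exact Or.inl h
      · exfalso
        exact (x.2.1.1 q).1 hq (x.2.1.2 _ _ hx h)
      · exact Or.inr h
      · exfalso
        have h3 : S.star q ≠ S.star p := by
          intro h4
          apply h1
          rw [← S.star_star q, h4, S.star_star]
        exact (x.2.1.1 q).1 hq (hup _ h3 h)
    · rintro (h | h)
      · exact x.2.1.2 _ _ hx h
      · exact hup q h2 h
  apply Subtype.ext
  ext q
  by_cases h1 : q = p
  · subst h1
    exact ⟨fun _ => hx', fun _ => hx⟩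
  · by_cases h2 : q = S.star p
    · subst h2
      constructor
      · intro h
        exact absurd h ((x.2.1.1 p).1 hx)
      · intro h
        exact absurd h ((x'.2.1.1 p).1 hx')
    · rw [key hx hy q h1 h2, key hx' hy' q h1 h2]

lemma flip_isOr {o₀ : Set P} (x y : S.Vert o₀) {p : P} (hp : p ∈ x.1) (hp' : p ∉ y.1)
    (hmin : ∀ q, q ∈ x.1 \ y.1 → q ≤ p → q = p) : S.IsOr (S.flip p x.1) := by
  have hsp : S.star p ∈ y.1 := by
    by_contra h
    exact hp' ((y.2.1.1 p).2 h)
  constructor
  · intro q
    rw [mem_flip, mem_flip]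
    constructor
    · rintro (rfl | ⟨h1, h2⟩)
      · rw [S.star_star]
        rintro (h | h)
        · exact ne_star p h
        · exact h.2 rfl
      · rintro (h | h)
        · apply h2
          rw [← S.star_star q, h, S.star_star]
        · exact (x.2.1.1 q).1 h1 h.1
    · intro h
      by_cases h1 : q = S.star p
      · exact Or.inl h1
      · right
        constructor
        · by_contra h2
          have h3 : S.star q ∈ x.1 := by
            by_contra h3
            exact h2 ((x.2.1.1 q).2 h3)
          apply h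
          right
          refine ⟨h3, ?_⟩
          intro h4
          apply h1
          rw [← h4, S.star_star]
        · rintro rfl
          exact h (Or.inl rfl)
  · intro q r hq hqr
    rw [mem_flip] at hq ⊢
    rcases hq with rfl | ⟨hq1, hq2⟩
    · by_cases h1 : r = S.star p
      · exact Or.inl h1
      · right
        have hr : r ∈ y.1 := y.2.1.2 _ _ hsp hqr
        constructor
        · by_contra h2
          have h3 : S.star r ∈ x.1 := by
            by_contra h3
            exact h2 ((x.2.1.1 r).2 h3)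
          have h4 : S.star r ≤ p := by
            have := S.anti _ _ hqr
            rwa [S.star_star] at this
          have := hmin _ ⟨h3, (y.2.1.1 r).1 hr⟩ h4
          apply h1
          rw [← this, S.star_star]
        · rintro rfl
          exact not_star_le _ hqr
    · right
      refine ⟨x.2.1.2 _ _ hq1 hqr, ?_⟩
      rintro rfl
      have h1 : q ∉ y.1 := fun h => hp' (y.2.1.2 _ _ h hqr)
      exact hq2 (hmin q ⟨hq1, h1⟩ hqr)

lemma flip_diff_finite {o₀ o : Set P} (p : P) (h : (o \ o₀).Finite) :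
    (S.flip p o \ o₀).Finite := by
  apply (h.union (Set.finite_singleton (S.star p))).subset
  rintro q ⟨h1, h2⟩
  rw [mem_flip] at h1
  rcases h1 with h1 | h1
  · exact Or.inr h1
  · exact Or.inl ⟨h1.1, h2⟩

lemma reachable {o₀ : Set P} (h₀ : S.IsOr o₀) : ∀ (n : ℕ) (x y : S.Vert o₀),
    (x.1 \ y.1).ncard = n → (S.graph o₀).Reachable x y := by
  intro n
  induction n with
  | zero =>
    intro x y h
    rw [Set.ncard_eq_zero (diff_finite h₀ x y), Set.sdiff_eq_empty] at h
    have : x = y := by
      apply Subtype.ext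
      apply Set.Subset.antisymm h
      intro q hq
      by_contra h2
      have h3 : S.star q ∈ x.1 := by
        by_contra h3
        exact h2 ((x.2.1.1 q).2 h3)
      exact (y.2.1.1 q).1 hq (h h3)
    rw [this]
  | succ n ih =>
    intro x y h
    have hfin := diff_finite h₀ x y
    have hne : (x.1 \ y.1).Nonempty := by
      rw [← Set.ncard_pos hfin]
      omega
    obtain ⟨p, hp⟩ := hfin.exists_minimal hne
    have hmin : ∀ q, q ∈ x.1 \ y.1 → q ≤ p → q = p := by
      intro q hq hqp
      exact le_antisymm hqp (hp.2 hq hqp)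
    have hp1 := hp.1
    let z : S.Vert o₀ := ⟨S.flip p x.1, flip_isOr x y hp1.1 hp1.2 hmin,
      flip_diff_finite p x.2.2⟩
    have hxz : (S.graph o₀).Adj x z := ⟨p, hp1.1, rfl⟩
    have hzy : z.1 \ y.1 = (x.1 \ y.1) \ {p} := by
      ext q
      simp only [Set.mem_sdiff, Set.mem_singleton_iff, z]
      rw [mem_flip]
      constructor
      · rintro ⟨h1 | h1, h2⟩
        · exfalso
          apply h2
          rw [h1]
          by_contra h3
          exact hp1.2 ((y.2.1.1 p).2 h3)
        · exact ⟨⟨h1.1, h2⟩, h1.2⟩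
      · rintro ⟨⟨h1, h2⟩, h3⟩
        exact ⟨Or.inr ⟨h1, h3⟩, h2⟩
    have hcard : (z.1 \ y.1).ncard = n := by
      rw [hzy, Set.ncard_sdiff_singleton_of_mem hp1, h]
      rfl
    exact hxz.reachable.trans (ih z y hcard)

lemma isTree {o₀ : Set P} (h₀ : S.IsOr o₀) : (S.graph o₀).IsTree := by
  constructor
  · have : Nonempty (S.Vert o₀) := ⟨⟨o₀, h₀, by simp⟩⟩
    exact SimpleGraph.Connected.mk (fun x y => reachable h₀ _ x y rfl)
  · rw [SimpleGraph.isAcyclic_iff_forall_adj_isBridge]
    rintro x y ⟨p, hp, hy⟩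
    rw [SimpleGraph.isBridge_iff_forall_walk_mem_edges]
    intro w
    have hpy : p ∉ y.1 := by
      rw [hy, mem_flip]
      rintro (h | h)
      · exact ne_star p h
      · exact h.2 rfl
    obtain ⟨d, hd1, hd2, hd3⟩ := w.exists_boundary_dart {z : S.Vert o₀ | p ∈ z.1} hp hpy
    obtain ⟨q, hq, hd⟩ := d.adj
    have hqp : q = p := by
      by_contra hne
      apply hd3
      change p ∈ d.snd.1
      rw [hd, mem_flip]
      exact Or.inr ⟨hd2, fun h => hne h.symm⟩
    subst hqp
    have e1 : d.fst = x := flip_unique hq hd hp hy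
    have e2 : d.snd = y := by
      apply Subtype.ext
      rw [hd, hy, e1]
    have : s(x, y) = d.edge := by
      rw [← e1, ← e2]
      rfl
    rw [this]
    exact List.mem_map.2 ⟨d, hd1, rfl⟩

end NPoc

end Pool.Agent.Lib.MP_836f52_al_H7.VF
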