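import Pool.Agent.Lib.MP_836f52_al_H7.VF.Base
import Pool.Agent.Lib.MP_836f52_al_H7.VF.Cayley

set_option autoImplicit false

/-!
Finitely generated virtually free groups act on trees.
-/

namespace Pool.Agent.Lib.MP_836f52_al_H7.VF

open Pool.Agent.Lib.MP_836f52_al_H7

universe u

lemma free_torsionFree {N : Type u} [Group N] {X : Type u} (φ : N ≃* FreeGroup X) (n : N) (k : ℕ)
    (hk : 0 < k) (h : n ^ k = 1) : n = 1 := by
  have h1 : (φ n) ^ k = 1 := by rw [← map_pow, h, map_one]
  have h2 : φ n = 1 := by
    have := pow_left_injective (M := FreeGroup X) (n := k) (by omega)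
    apply this
    simp only [one_pow]
    exact h1
  exact (map_eq_one_iff φ φ.injective).1 h2

/-- finitely generated virtually free groups act on trees -/
theorem vf_tree {B : Type u} [Group B] (N : Subgroup B) [hNn : N.Normal] [hNf : N.FiniteIndex]
    (hN : IsFreeGroup N) (hfg : (⊤ : Subgroup B).FG) :
    ∃ (S : Type u) (T : SimpleGraph S) (_ : MulAction B S), T.IsTree ∧
      (∀ (b : B) (x y : S), T.Adj x y → T.Adj (b • x) (b • y)) ∧
      (∀ (b : B) (x y : S), T.Adj x y → b • x = y → b • y = x → False) ∧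
      ∀ n ∈ N, ∀ x : S, n • x = x → n = 1 := by
  obtain ⟨Sg, hSg⟩ := hfg
  let X := IsFreeGroup.Generators N
  let φ : N ≃* FreeGroup X := IsFreeGroup.toFreeGroup N
  let _ : MulAction N (FreeGroup X) :=
    { smul := fun n w => φ n * w
      one_smul := fun w => by
        change φ 1 * w = w
        rw [map_one, one_mul]
      mul_smul := fun n m w => by
        change φ (n * m) * w = φ n * (φ m * w)
        rw [map_mul, mul_assoc] }
  have hsm : ∀ (n : N) (w : FreeGroup X), n • w = φ n * w := fun _ _ => rfl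
  refine base_tree (N := N) (Sg := Sg) (Finset.finite_toSet _) hSg (cayley X) (cayley_isTree X)
    ?_ ?_ 1 ?_ (free_torsionFree φ)
  · intro n x y h
    exact cayley_adj_mul _ h
  · intro n x h
    rw [hsm, mul_eq_right] at h
    exact (map_eq_one_iff φ φ.injective).1 h
  · intro x
    refine ⟨φ.symm x, ?_⟩
    rw [hsm, mul_one]
    simp

/-- the normal core of a free subgroup of finite index -/
lemma normalCore_free {G : Type u} [Group G] (F : Subgroup G) (hF : IsFreeGroup F) :
    IsFreeGroup F.normalCore := by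
  have h1 : IsFreeGroup (F.normalCore.subgroupOf F) := inferInstance
  exact IsFreeGroup.ofMulEquiv (Subgroup.subgroupOfEquivOfLe F.normalCore_le)

lemma inf_free {G : Type u} [Group G] (N B : Subgroup G) (hN : IsFreeGroup N) :
    IsFreeGroup (N.subgroupOf B) := by
  have h1 : IsFreeGroup ((N ⊓ B).subgroupOf N) := inferInstance
  have h2 : IsFreeGroup (N ⊓ B : Subgroup G) :=
    IsFreeGroup.ofMulEquiv (Subgroup.subgroupOfEquivOfLe inf_le_left)
  have h3 : (N ⊓ B).subgroupOf B = N.subgroupOf B := Subgroup.inf_subgroupOf_right N B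
  rw [← h3]
  exact IsFreeGroup.ofMulEquiv (Subgroup.subgroupOfEquivOfLe inf_le_right).symm

/-- finitely generated virtually free groups have (LR) -/
theorem vf_fg_hasLR {B : Type u} [Group B] (N : Subgroup B) [hNn : N.Normal]
    [hNf : N.FiniteIndex] (hN : IsFreeGroup N) (hfg : (⊤ : Subgroup B).FG) : HasLR B := by
  obtain ⟨S, T, _, h1, h2, -, h4⟩ := vf_tree N hN hfg
  exact tree_hasLR h1 h2 N hNf h4

end Pool.Agent.Lib.MP_836f52_al_H7.VF
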