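import Pool.Agent.Lib.MP_836f52_al_H7.Tree

set_option autoImplicit false

/-!
Finite groups acting on trees without inversions fix a vertex.
-/

namespace Pool.Agent.Lib.MP_836f52_al_H7.VF

open Pool.Agent.Lib.MP_836f52_al_H7

universe u v

variable {S : Type u} {T : SimpleGraph S} {B : Type v} [Group B] [MulAction B S]

theorem finite_fixed (hT : T.IsTree)
    (hact : ∀ (b : B) (x y : S), T.Adj x y → T.Adj (b • x) (b • y))
    (hinv : ∀ (b : B) (x y : S), T.Adj x y → b • x = y → b • y = x → False)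
    (F : Subgroup B) (hF : Finite F) : ∃ x : S, ∀ g ∈ F, g • x = x := by
  classical
  have hc := hT.1
  obtain ⟨v0⟩ := hc.nonempty
  have hd := dist_smul (X := T) hc hact
  have hex : ∃ r, ∃ x, ∀ g ∈ F, T.dist x (g • v0) ≤ r := by
    have : (Set.range (fun g : F => T.dist v0 ((g : B) • v0))).Finite := Set.finite_range _
    obtain ⟨r, hr⟩ := this.bddAbove
    exact ⟨r, v0, fun g hg => hr ⟨⟨g, hg⟩, rfl⟩⟩
  obtain ⟨x, hx⟩ := Nat.find_spec hex
  set r := Nat.find hex with hr
  have hinvM : ∀ h ∈ F, ∀ x, (∀ g ∈ F, T.dist x (g • v0) ≤ r) →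
      ∀ g ∈ F, T.dist (h • x) (g • v0) ≤ r := by
    intro h hh x hx g hg
    have h1 := hx _ (F.mul_mem (F.inv_mem hh) hg)
    have h2 := hd h x ((h⁻¹ * g) • v0)
    rw [← mul_smul, mul_inv_cancel_left] at h2
    rw [h2]
    exact h1
  have hpair : ∀ x y, (∀ g ∈ F, T.dist x (g • v0) ≤ r) → (∀ g ∈ F, T.dist y (g • v0) ≤ r) →
      x = y ∨ T.Adj x y := by
    intro x y hx hy
    by_contra hcon
    push Not at hcon
    obtain ⟨h1, h2⟩ := hcon
    obtain ⟨z, hz1, hz2⟩ := first_step hc h1
    have h3 : T.dist x y ≠ 1 := fun h => h2 (SimpleGraph.dist_eq_one_iff_adj.1 h)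
    have h4 : T.dist x z = 1 := SimpleGraph.dist_eq_one_iff_adj.2 hz1
    have hP : ∀ g ∈ F, T.dist z (g • v0) + 1 ≤ r := by
      intro g hg
      have hxg := hx g hg
      have hyg := hy g hg
      rcases tree_split hT (g • v0) (a := x) (c := y) (z := z) (by omega) with h | h
      · omega
      · have c1 := T.dist_comm (u := g • v0) (v := z)
        have c2 := T.dist_comm (u := g • v0) (v := y)
        omega
    have h5 := hP 1 F.one_mem
    have h6 : ∃ x, ∀ g ∈ F, T.dist x (g • v0) ≤ r - 1 := ⟨z, fun g hg => by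
      have := hP g hg
      omega⟩
    have h7 := Nat.find_min' hex h6
    omega
  refine ⟨x, ?_⟩
  by_contra hcon
  push Not at hcon
  obtain ⟨g, hg, hgx⟩ := hcon
  have hadj : T.Adj x (g • x) := by
    rcases hpair x (g • x) hx (hinvM g hg x hx) with h | h
    · exact absurd h.symm hgx
    · exact h
  have h2 : g • g • x = x := by
    have h3 : ∀ k ∈ F, T.dist (g • g • x) (k • v0) ≤ r := hinvM g hg _ (hinvM g hg x hx)
    have h4 := hact g _ _ hadj
    rcases hpair x (g • g • x) hx h3 with h | h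
    · exact h.symm
    · exfalso
      have d1 : T.dist x (g • x) = 1 := SimpleGraph.dist_eq_one_iff_adj.2 hadj
      have d2 : T.dist x (g • g • x) = 1 := SimpleGraph.dist_eq_one_iff_adj.2 h
      have := tree_dist_adj hT h4 x
      omega
  exact hinv g x (g • x) hadj rfl h2

end Pool.Agent.Lib.MP_836f52_al_H7.VF
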