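import Pool.Agent.Lib.MP_836f52_al_H7.VF.Cuts

set_option autoImplicit false

/-!
Minimal and optimal cuts separating pairs of points.
-/

namespace Pool.Agent.Lib.MP_836f52_al_H7.VF

universe u v

variable {V : Type u}

/-- a point of the Boolean algebra of finite cuts -/
structure IsPt (Γ : SimpleGraph V) (p : Set V → Prop) : Prop where
  inter : ∀ C D : Set V, (bd Γ C).Finite → (bd Γ D).Finite → (p (C ∩ D) ↔ p C ∧ p D)
  compl : ∀ C : Set V, (bd Γ C).Finite → (p Cᶜ ↔ ¬ p C)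

/-- separation of two points by a cut -/
def Sep (p q : Set V → Prop) (C : Set V) : Prop := ¬ (p C ↔ q C)

structure IsMin (Γ : SimpleGraph V) (p q : Set V → Prop) (C : Set V) : Prop where
  fin : (bd Γ C).Finite
  sep : Sep p q C
  le : ∀ D, (bd Γ D).Finite → Sep p q D → sz Γ C ≤ sz Γ D

lemma sep_compl {Γ : SimpleGraph V} {p q : Set V → Prop} (hp : IsPt Γ p) (hq : IsPt Γ q)
    {C : Set V} (hC : (bd Γ C).Finite) : Sep p q Cᶜ ↔ Sep p q C := by
  unfold Sep
  rw [hp.compl C hC, hq.compl C hC]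
  tauto

lemma IsMin.compl {Γ : SimpleGraph V} {p q : Set V → Prop} (hp : IsPt Γ p) (hq : IsPt Γ q)
    {C : Set V} (h : IsMin Γ p q C) : IsMin Γ p q Cᶜ where
  fin := bd_compl_finite h.fin
  sep := (sep_compl hp hq h.fin).2 h.sep
  le D hD hs := by
    rw [sz_compl]
    exact h.le D hD hs

lemma conn_of_isMin {Γ : SimpleGraph V} (hΓ : Γ.Preconnected) {p q : Set V → Prop}
    (hp : IsPt Γ p) (hq : IsPt Γ q) {C : Set V} (h : IsMin Γ p q C) : Conn Γ C := by
  intro x hx y hy
  by_contra hxy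
  set r : V → V → Prop := fun a b => Γ.Adj a b ∧ a ∈ C ∧ b ∈ C with hr
  have hsymm : ∀ a b, r a b → r b a := fun a b ⟨h1, h2, h3⟩ => ⟨h1.symm, h3, h2⟩
  let C1 : Set V := {z | z ∈ C ∧ Relation.ReflTransGen r x z}
  let C2 : Set V := {z | z ∈ C ∧ ¬ Relation.ReflTransGen r x z}
  have hb1 : bd Γ C1 ⊆ bd Γ C := by
    rintro ⟨a, b⟩ ⟨h1, h2, h3⟩
    refine ⟨h1, h2.1, ?_⟩
    intro hb
    exact h3 ⟨hb, h2.2.tail ⟨h1, h2.1, hb⟩⟩
  have hb2 : bd Γ C2 ⊆ bd Γ C := by
    rintro ⟨a, b⟩ ⟨h1, h2, h3⟩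
    refine ⟨h1, h2.1, ?_⟩
    intro hb
    apply h3
    refine ⟨hb, fun hb' => h2.2 (hb'.tail ⟨h1.symm, hb, h2.1⟩)⟩
  have hdisj : Disjoint (bd Γ C1) (bd Γ C2) := by
    rw [Set.disjoint_left]
    rintro ⟨a, b⟩ ⟨_, h2, _⟩ ⟨_, h2', _⟩
    exact h2'.2 h2.2
  have hf1 := h.fin.subset hb1
  have hf2 := h.fin.subset hb2
  have hsum : sz Γ C1 + sz Γ C2 ≤ sz Γ C := by
    unfold sz
    rw [← Set.ncard_union_eq hdisj hf1 hf2]
    exact Set.ncard_le_ncard (Set.union_subset hb1 hb2) h.fin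
  obtain ⟨w⟩ := hΓ x y
  have hpos1 : 0 < sz Γ C1 := by
    obtain ⟨d, _, hd1, hd2⟩ := w.exists_boundary_dart C1 ⟨hx, Relation.ReflTransGen.refl⟩
      (fun h' => hxy h'.2)
    unfold sz
    rw [Set.ncard_pos hf1]
    exact ⟨(d.fst, d.snd), d.adj, hd1, hd2⟩
  have hpos2 : 0 < sz Γ C2 := by
    obtain ⟨d, _, hd1, hd2⟩ := w.reverse.exists_boundary_dart C2 ⟨hy, hxy⟩
      (fun h' => h'.2 Relation.ReflTransGen.refl)
    unfold sz
    rw [Set.ncard_pos hf2]
    exact ⟨(d.fst, d.snd), d.adj, hd1, hd2⟩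
  have hunion : C = (C1ᶜ ∩ C2ᶜ)ᶜ := by
    ext z
    simp only [C1, C2, Set.mem_compl_iff, Set.mem_inter_iff, Set.mem_ofPred_eq]
    tauto
  have hpt : ∀ p : Set V → Prop, IsPt Γ p → (p C ↔ p C1 ∨ p C2) := by
    intro p hp
    have e1 := hp.compl (C1ᶜ ∩ C2ᶜ) (bd_inter_finite (bd_compl_finite hf1) (bd_compl_finite hf2))
    rw [← hunion, hp.inter _ _ (bd_compl_finite hf1) (bd_compl_finite hf2), hp.compl _ hf1,
      hp.compl _ hf2] at e1
    tauto
  have hs := h.sep
  unfold Sep at hs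
  rw [hpt p hp, hpt q hq] at hs
  by_cases hs1 : Sep p q C1
  · have := h.le C1 hf1 hs1
    omega
  · by_cases hs2 : Sep p q C2
    · have := h.le C2 hf2 hs2
      omega
    · unfold Sep at hs1 hs2
      tauto

lemma tight_of_isMin {Γ : SimpleGraph V} (hΓ : Γ.Preconnected) {p q : Set V → Prop}
    (hp : IsPt Γ p) (hq : IsPt Γ q) {C : Set V} (h : IsMin Γ p q C) {K : ℕ} (hK : sz Γ C ≤ K) :
    C ∈ TightCuts Γ K :=
  ⟨conn_of_isMin hΓ hp hq h, conn_of_isMin hΓ hp hq (h.compl hp hq), h.fin, hK⟩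

/-- crossing number -/
noncomputable def cr (Γ : SimpleGraph V) (K : ℕ) (C : Set V) : ℕ :=
  {D | D ∈ TightCuts Γ K ∧ ¬ Nested C D}.ncard

lemma cr_compl (Γ : SimpleGraph V) (K : ℕ) (C : Set V) : cr Γ K Cᶜ = cr Γ K C := by
  unfold cr
  simp only [nested_compl_left]

lemma nested_corner {C D F : Set V} (hCD : ¬ Nested C D) (h1 : Nested C F) (h2 : Nested D F) :
    Nested (C ∩ D) F ∧ Nested (Cᶜ ∩ Dᶜ) F := by
  unfold Nested at *
  simp only [Set.subset_def, Set.mem_inter_iff, Set.mem_compl_iff] at *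
  push Not at hCD
  obtain ⟨⟨a1, b1, c1⟩, ⟨a2, b2, c2⟩, ⟨a3, b3, c3⟩, ⟨a4, b4, c4⟩⟩ := hCD
  rcases h1 with h1 | h1 | h1 | h1 <;> rcases h2 with h2 | h2 | h2 | h2
  all_goals constructor
  all_goals
    first
    | exact Or.inl (fun x hx => by have := h1 x; have := h2 x; tauto)
    | exact Or.inr (Or.inl (fun x hx => by have := h1 x; have := h2 x; tauto))
    | exact Or.inr (Or.inr (Or.inl (fun x hx => by have := h1 x; have := h2 x; tauto)))
    | exact Or.inr (Or.inr (Or.inr (fun x hx => by have := h1 x; have := h2 x; tauto)))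

lemma nested_corner' {C D F : Set V} (h : Nested C F ∨ Nested D F) :
    Nested (C ∩ D) F ∨ Nested (Cᶜ ∩ Dᶜ) F := by
  unfold Nested at *
  rcases h with (h | h | h | h) | (h | h | h | h)
  · exact Or.inl (Or.inl (Set.inter_subset_left.trans h))
  · exact Or.inl (Or.inr (Or.inl (Set.inter_subset_left.trans h)))
  · exact Or.inr (Or.inl (Set.inter_subset_left.trans h))
  · exact Or.inr (Or.inr (Or.inl (Set.inter_subset_left.trans h)))
  · exact Or.inl (Or.inl (Set.inter_subset_right.trans h))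
  · exact Or.inl (Or.inr (Or.inl (Set.inter_subset_right.trans h)))
  · exact Or.inr (Or.inl (Set.inter_subset_right.trans h))
  · exact Or.inr (Or.inr (Or.inl (Set.inter_subset_right.trans h)))

lemma cr_sum {Γ : SimpleGraph V} (hΓ : Γ.Preconnected) {K : ℕ} {C D : Set V}
    (hC : C ∈ TightCuts Γ K) (hD : D ∈ TightCuts Γ K) (hCD : ¬ Nested C D) :
    cr Γ K (C ∩ D) + cr Γ K (Cᶜ ∩ Dᶜ) < cr Γ K C + cr Γ K D := by
  have hbC := hC.2.2.1
  have hbD := hD.2.2.1
  unfold cr
  set XE : Set (Set V) := {F | F ∈ TightCuts Γ K ∧ ¬ Nested (C ∩ D) F} with hXE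
  set XE' : Set (Set V) := {F | F ∈ TightCuts Γ K ∧ ¬ Nested (Cᶜ ∩ Dᶜ) F} with hXE'
  set XC : Set (Set V) := {F | F ∈ TightCuts Γ K ∧ ¬ Nested C F} with hXC
  set XD : Set (Set V) := {F | F ∈ TightCuts Γ K ∧ ¬ Nested D F} with hXD
  have f1 : XE.Finite := crossing_finite hΓ K (bd_inter_finite hbC hbD)
  have f2 : XE'.Finite :=
    crossing_finite hΓ K (bd_inter_finite (bd_compl_finite hbC) (bd_compl_finite hbD))
  have f3 : XC.Finite := crossing_finite hΓ K hbC
  have f4 : XD.Finite := crossing_finite hΓ K hbD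
  have hu : XE ∪ XE' ⊆ (XC ∪ XD) \ {C} := by
    rintro F hF
    constructor
    · by_contra hcon
      have hFT : F ∈ TightCuts Γ K := by
        rcases hF with h | h <;> exact h.1
      have h1 : Nested C F := by
        by_contra h
        exact hcon (Or.inl ⟨hFT, h⟩)
      have h2 : Nested D F := by
        by_contra h
        exact hcon (Or.inr ⟨hFT, h⟩)
      have := nested_corner hCD h1 h2
      rcases hF with h | h
      · exact h.2 this.1
      · exact h.2 this.2
    · intro hFC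
      rw [Set.mem_singleton_iff] at hFC
      subst hFC
      rcases hF with h | h
      · exact h.2 (Or.inl Set.inter_subset_left)
      · exact h.2 (Or.inr (Or.inl Set.inter_subset_left))
  have hi : XE ∩ XE' ⊆ XC ∩ XD := by
    rintro F ⟨h1, h2⟩
    have : ¬ (Nested C F ∨ Nested D F) := by
      intro h
      rcases nested_corner' h with h | h
      · exact h1.2 h
      · exact h2.2 h
    push Not at this
    exact ⟨⟨h1.1, this.1⟩, ⟨h1.1, this.2⟩⟩
  have e1 := Set.ncard_union_add_ncard_inter XE XE' f1 f2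
  have e2 := Set.ncard_union_add_ncard_inter XC XD f3 f4
  have e3 := Set.ncard_le_ncard hu ((f3.union f4).subset Set.sdiff_subset)
  have e4 := Set.ncard_le_ncard hi (f3.inter_of_left _)
  have hmem : C ∈ XC ∪ XD := Or.inr ⟨hC, fun h => hCD h.symm⟩
  have e5 := Set.ncard_sdiff_singleton_lt_of_mem hmem (f3.union f4)
  omega

structure IsOpt (Γ : SimpleGraph V) (K : ℕ) (p q : Set V → Prop) (C : Set V) : Prop where
  min : IsMin Γ p q C
  opt : ∀ D, IsMin Γ p q D → cr Γ K C ≤ cr Γ K D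

lemma IsOpt.compl {Γ : SimpleGraph V} {K : ℕ} {p q : Set V → Prop} (hp : IsPt Γ p)
    (hq : IsPt Γ q) {C : Set V} (h : IsOpt Γ K p q C) : IsOpt Γ K p q Cᶜ where
  min := h.min.compl hp hq
  opt D hD := by
    rw [cr_compl]
    exact h.opt D hD

lemma exists_isOpt (Γ : SimpleGraph V) (K : ℕ) {p q : Set V → Prop}
    (h : ∃ C, (bd Γ C).Finite ∧ Sep p q C) : ∃ C, IsOpt Γ K p q C := by
  classical
  have h1 : ∃ n, ∃ C, (bd Γ C).Finite ∧ Sep p q C ∧ sz Γ C = n := by
    obtain ⟨C, h1, h2⟩ := h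
    exact ⟨_, C, h1, h2, rfl⟩
  obtain ⟨C, hC1, hC2, hC3⟩ := Nat.find_spec h1
  have hmin : IsMin Γ p q C := ⟨hC1, hC2, fun D hD1 hD2 => by
    rw [hC3]
    exact Nat.find_min' h1 ⟨D, hD1, hD2, rfl⟩⟩
  have h2 : ∃ n, ∃ C, IsMin Γ p q C ∧ cr Γ K C = n := ⟨_, C, hmin, rfl⟩
  obtain ⟨D, hD1, hD2⟩ := Nat.find_spec h2
  exact ⟨D, hD1, fun E hE => by
    rw [hD2]
    exact Nat.find_min' h2 ⟨E, hE, rfl⟩⟩

section Cross

variable {Γ : SimpleGraph V} {K : ℕ} {p q r s : Set V → Prop}

lemma cross_good (hΓ : Γ.Preconnected) {C D : Set V}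
    (hC : IsOpt Γ K p q C) (hD : IsOpt Γ K r s D) (hCK : C ∈ TightCuts Γ K)
    (hDK : D ∈ TightCuts Γ K) (hCD : ¬ Nested C D)
    (h1 : Sep p q (C ∩ D)) (h2 : Sep r s (Cᶜ ∩ Dᶜ)) : False := by
  have hbC := hCK.2.2.1
  have hbD := hDK.2.2.1
  have hbE := bd_inter_finite hbC hbD
  have hbE' := bd_inter_finite (bd_compl_finite hbC) (bd_compl_finite hbD)
  have s1 := sz_submodular hbC hbD
  have s2 := hC.min.le _ hbE h1
  have s3 := hD.min.le _ hbE' h2
  have m1 : IsMin Γ p q (C ∩ D) := ⟨hbE, h1, fun F hF hF' => by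
    have := hC.min.le F hF hF'
    omega⟩
  have m2 : IsMin Γ r s (Cᶜ ∩ Dᶜ) := ⟨hbE', h2, fun F hF hF' => by
    have := hD.min.le F hF hF'
    omega⟩
  have c1 := hC.opt _ m1
  have c2 := hD.opt _ m2
  have c3 := cr_sum hΓ hCK hDK hCD
  omega

lemma cross_bad (hΓ : Γ.Preconnected) {C D : Set V}
    (hC : IsOpt Γ K p q C) (hD : IsOpt Γ K r s D) (hCK : C ∈ TightCuts Γ K)
    (hDK : D ∈ TightCuts Γ K) (hCD : ¬ Nested C D) (h1' : Sep p q D) (h2' : Sep r s C)
    (h1 : Sep p q (C ∩ D)) (h2 : Sep p q (Cᶜ ∩ Dᶜ))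
    (h3 : Sep r s (C ∩ Dᶜ)) (h4 : Sep r s (Cᶜ ∩ D)) : False := by
  have hbC := hCK.2.2.1
  have hbD := hDK.2.2.1
  have hbC' := bd_compl_finite hbC
  have hbD' := bd_compl_finite hbD
  have b1 := bd_inter_finite hbC hbD
  have b2 := bd_inter_finite hbC' hbD'
  have b3 := bd_inter_finite hbC hbD'
  have b4 := bd_inter_finite hbC' hbD
  have s1 := sz_submodular hbC hbD
  have s2 := sz_submodular hbC hbD'
  rw [compl_compl, sz_compl Γ D] at s2
  have k1 := hC.min.le _ hbD h1'
  have k2 := hD.min.le _ hbC h2'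
  have k3 := hC.min.le _ b1 h1
  have k4 := hC.min.le _ b2 h2
  have k5 := hD.min.le _ b3 h3
  have k6 := hD.min.le _ b4 h4
  have m1 : IsMin Γ p q (C ∩ D) := ⟨b1, h1, fun F hF hF' => by
    have := hC.min.le F hF hF'
    omega⟩
  have m2 : IsMin Γ p q (Cᶜ ∩ Dᶜ) := ⟨b2, h2, fun F hF hF' => by
    have := hC.min.le F hF hF'
    omega⟩
  have m3 : IsMin Γ r s (C ∩ Dᶜ) := ⟨b3, h3, fun F hF hF' => by
    have := hD.min.le F hF hF'
    omega⟩
  have m4 : IsMin Γ r s (Cᶜ ∩ D) := ⟨b4, h4, fun F hF hF' => by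
    have := hD.min.le F hF hF'
    omega⟩
  have c1 := hC.opt _ m1
  have c2 := hC.opt _ m2
  have c3 := hD.opt _ m3
  have c4 := hD.opt _ m4
  have c5 := cr_sum hΓ hCK hDK hCD
  have c6 := cr_sum hΓ hCK (tightCuts_compl hDK) (fun h => hCD (nested_compl_right.1 h))
  rw [compl_compl, cr_compl Γ K D] at c6
  omega

/-- sign choice -/
def cs (a : Bool) (C : Set V) : Set V := if a then C else Cᶜ

lemma bool_cases (pC pD qC qD rC rD sC sD : Bool) (h1 : pC ≠ qC) (h2 : rD ≠ sD) :
    (∃ a b : Bool, (pC == a && pD == b) ≠ (qC == a && qD == b) ∧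
      (rC == !a && rD == !b) ≠ (sC == !a && sD == !b)) ∨
    (∃ b : Bool, pD ≠ qD ∧ rC ≠ sC ∧
      (pC == true && pD == b) ≠ (qC == true && qD == b) ∧
      (pC == false && pD == !b) ≠ (qC == false && qD == !b) ∧
      (rC == true && rD == !b) ≠ (sC == true && sD == !b) ∧
      (rC == false && rD == b) ≠ (sC == false && sD == b)) := by
  revert pC pD qC qD rC rD sC sD
  decide

lemma nested_of_isOpt (hΓ : Γ.Preconnected) (hp : IsPt Γ p) (hq : IsPt Γ q) (hr : IsPt Γ r)
    (hs : IsPt Γ s) {C D : Set V} (hC : IsOpt Γ K p q C) (hD : IsOpt Γ K r s D)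
    (hCK : sz Γ C ≤ K) (hDK : sz Γ D ≤ K) : Nested C D := by
  classical
  by_contra hCD
  have tC := tight_of_isMin hΓ hp hq hC.min hCK
  have tD := tight_of_isMin hΓ hr hs hD.min hDK
  have fC := hC.min.fin
  have fD := hD.min.fin
  have cfin : ∀ (a : Bool) (E : Set V), (bd Γ E).Finite → (bd Γ (cs a E)).Finite := by
    intro a E hE
    unfold cs
    split_ifs
    · exact hE
    · exact bd_compl_finite hE
  have cval : ∀ (t : Set V → Prop), IsPt Γ t → ∀ (a : Bool) (E : Set V), (bd Γ E).Finite →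
      (t (cs a E) ↔ decide (t E) = a) := by
    intro t ht a E hE
    unfold cs
    cases a
    · simp [ht.compl E hE]
    · simp
  have corner : ∀ (t : Set V → Prop), IsPt Γ t → ∀ a b : Bool,
      (t (cs a C ∩ cs b D) ↔ (decide (t C) == a && decide (t D) == b) = true) := by
    intro t ht a b
    rw [ht.inter _ _ (cfin a C fC) (cfin b D fD), cval t ht a C fC, cval t ht b D fD]
    simp
  have boolne : ∀ x y : Bool, x ≠ y → ¬ (x = true ↔ y = true) := by decide
  have csnot : ∀ (a : Bool) (E : Set V), cs (!a) E = (cs a E)ᶜ := by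
    intro a E
    unfold cs
    cases a <;> simp
  have optcs : ∀ (t t' : Set V → Prop), IsPt Γ t → IsPt Γ t' → ∀ (a : Bool) (E : Set V),
      IsOpt Γ K t t' E → IsOpt Γ K t t' (cs a E) := by
    intro t t' ht ht' a E hE
    unfold cs
    split_ifs
    · exact hE
    · exact hE.compl ht ht'
  have tcs : ∀ (a : Bool) (E : Set V), E ∈ TightCuts Γ K → cs a E ∈ TightCuts Γ K := by
    intro a E hE
    unfold cs
    split_ifs
    · exact hE
    · exact tightCuts_compl hE
  have ncs : ∀ a b : Bool, ¬ Nested (cs a C) (cs b D) := by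
    intro a b h
    unfold cs at h
    apply hCD
    split_ifs at h
    · exact h
    · exact nested_compl_right.1 h
    · exact nested_compl_left.1 h
    · exact nested_compl_right.1 (nested_compl_left.1 h)
  have hne1 : decide (p C) ≠ decide (q C) := by
    have := hC.min.sep
    unfold Sep at this
    intro h
    apply this
    simpa using h
  have hne2 : decide (r D) ≠ decide (s D) := by
    have := hD.min.sep
    unfold Sep at this
    intro h
    apply this
    simpa using h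
  rcases bool_cases (decide (p C)) (decide (p D)) (decide (q C)) (decide (q D))
    (decide (r C)) (decide (r D)) (decide (s C)) (decide (s D)) hne1 hne2 with
    ⟨a, b, h1, h2⟩ | ⟨b, h0, h0', h1, h2, h3, h4⟩
  · apply cross_good hΓ (optcs p q hp hq a C hC) (optcs r s hr hs b D hD) (tcs a C tC)
      (tcs b D tD) (ncs a b)
    · unfold Sep
      rw [corner p hp, corner q hq]
      exact boolne _ _ h1
    · unfold Sep
      rw [← csnot, ← csnot, corner r hr, corner s hs]
      exact boolne _ _ h2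
  · have e1 : cs true C = C := by simp [cs]
    have e2 : cs false C = Cᶜ := by simp [cs]
    apply cross_bad hΓ hC (optcs r s hr hs b D hD) tC (tcs b D tD)
      (fun h => ncs true b (by rwa [e1]))
    · unfold Sep
      rw [cval p hp b D fD, cval q hq b D fD]
      revert h0
      cases decide (p D) <;> cases decide (q D) <;> cases b <;> simp
    · unfold Sep
      have e3 : ∀ t : Set V → Prop, t C ↔ decide (t C) = true := fun t => by simp
      rw [e3 r, e3 s]
      exact boolne _ _ h0'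
    · unfold Sep
      have k1 := corner p hp true b
      have k2 := corner q hq true b
      rw [e1] at k1 k2
      rw [k1, k2]
      exact boolne _ _ h1
    · unfold Sep
      rw [← csnot]
      have k1 := corner p hp false (!b)
      have k2 := corner q hq false (!b)
      rw [e2] at k1 k2
      rw [k1, k2]
      exact boolne _ _ h2
    · unfold Sep
      rw [← csnot]
      have k1 := corner r hr true (!b)
      have k2 := corner s hs true (!b)
      rw [e1] at k1 k2
      rw [k1, k2]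
      exact boolne _ _ h3
    · unfold Sep
      have k1 := corner r hr false b
      have k2 := corner s hs false b
      rw [e2] at k1 k2
      rw [k1, k2]
      exact boolne _ _ h4

end Cross

end Pool.Agent.Lib.MP_836f52_al_H7.VF
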